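import Mathlib

set_option autoImplicit false

namespace Pool.Agent.V5helper5.AB

open Finset

/-- The map `x ↦ x / 2` (`x` even), `x ↦ (α x + β) / 2` (`x` odd). -/
def T (α β x : ℤ) : ℤ := if x % 2 = 0 then x / 2 else (α * x + β) / 2

lemma two_T {α β : ℤ} (ha : α % 2 = 1) (hb : β % 2 = 1) (x : ℤ) :
    2 * T α β x = if x % 2 = 0 then x else α * x + β := by
  unfold T
  split_ifs with h
  · omega
  · have h1 : (α * x + β) % 2 = 0 := by
      have hx : x % 2 = 1 := by omega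
      rw [Int.add_emod, Int.mul_emod, ha, hb, hx]; norm_num
    omega

/-- the number of odd terms among the first `i` terms of the trajectory -/
def od (α β : ℤ) : ℕ → ℤ → ℕ
  | 0, _ => 0
  | i + 1, x => od α β i x + if (T α β)^[i] x % 2 = 0 then 0 else 1

/-- the constant term of the affine branch -/
def cc (α β : ℤ) : ℕ → ℤ → ℤ
  | 0, _ => 0
  | i + 1, x => if (T α β)^[i] x % 2 = 0 then cc α β i x else α * cc α β i x + β * 2 ^ i

lemma branch {α β : ℤ} (ha : α % 2 = 1) (hb : β % 2 = 1) (x : ℤ) :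
    ∀ i : ℕ, 2 ^ i * (T α β)^[i] x = α ^ od α β i x * x + cc α β i x := by
  intro i
  induction i with
  | zero => simp [od, cc]
  | succ i ih =>
    rw [Function.iterate_succ_apply', od, cc]
    have h := two_T ha hb ((T α β)^[i] x)
    split_ifs at h ⊢ with h1
    · rw [add_zero, ← ih, pow_succ]
      calc (2 : ℤ) ^ i * 2 * T α β ((T α β)^[i] x) = 2 ^ i * (2 * T α β ((T α β)^[i] x)) := by ring
        _ = _ := by rw [h]
    · rw [pow_succ, pow_succ]
      calc (2 : ℤ) ^ i * 2 * T α β ((T α β)^[i] x) = 2 ^ i * (2 * T α β ((T α β)^[i] x)) := by ring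
        _ = 2 ^ i * (α * (T α β)^[i] x + β) := by rw [h]
        _ = α * (2 ^ i * (T α β)^[i] x) + β * 2 ^ i := by ring
        _ = _ := by rw [ih]; ring

lemma cc_bound {α β : ℤ} {g : ℤ} (hg : |α| = g) (hg3 : 3 ≤ g) (x : ℤ) :
    ∀ i : ℕ, |cc α β i x| ≤ |β| * (g ^ i - 2 ^ i) := by
  intro i
  induction i with
  | zero => simp [cc]
  | succ i ih =>
    rw [cc]
    have h2 : (0 : ℤ) < 2 ^ i := by positivity
    have h3 : (2 : ℤ) ^ i ≤ g ^ i := pow_le_pow_left₀ (by norm_num) (by omega) i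
    have hβ := abs_nonneg β
    split_ifs with h
    · refine ih.trans ?_
      apply mul_le_mul_of_nonneg_left _ hβ
      rw [pow_succ, pow_succ]
      nlinarith
    · have h4 : |α * cc α β i x + β * 2 ^ i| ≤ g * |cc α β i x| + |β| * 2 ^ i := by
        refine (abs_add_le _ _).trans ?_
        rw [abs_mul, abs_mul, hg, abs_of_pos h2]
      refine h4.trans ?_
      have h5 : g * |cc α β i x| ≤ g * (|β| * (g ^ i - 2 ^ i)) :=
        mul_le_mul_of_nonneg_left ih (by omega)
      have h6 : g * (|β| * (g ^ i - 2 ^ i)) + |β| * 2 ^ i = |β| * (g ^ (i + 1) - (g - 1) * 2 ^ i) := by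
        ring
      have h7 : |β| * (g ^ (i + 1) - (g - 1) * 2 ^ i) ≤ |β| * (g ^ (i + 1) - 2 ^ (i + 1)) := by
        apply mul_le_mul_of_nonneg_left _ hβ
        rw [pow_succ 2 i]
        nlinarith
      linarith

lemma od_le (α β x : ℤ) : ∀ i : ℕ, od α β i x ≤ i := by
  intro i
  induction i with
  | zero => simp [od]
  | succ i ih => rw [od]; split_ifs <;> omega

/-- integers which are congruent modulo `2 ^ w` have the same branches up to `w` steps -/
lemma congr_branch {α β : ℤ} (ha : α % 2 = 1) (hb : β % 2 = 1) {x y : ℤ} {w : ℕ}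
    (h : (2 : ℤ) ^ w ∣ x - y) :
    ∀ i : ℕ, i ≤ w → od α β i x = od α β i y ∧ cc α β i x = cc α β i y := by
  intro i
  induction i with
  | zero => intro _; simp [od, cc]
  | succ i ih =>
    intro hi
    obtain ⟨h1, h2⟩ := ih (by omega)
    have hx := branch ha hb x i
    have hy := branch ha hb y i
    have hd : (2 : ℤ) ^ i * 2 ∣ 2 ^ i * ((T α β)^[i] x - (T α β)^[i] y) := by
      rw [mul_sub, hx, hy, h1, h2]
      have e : α ^ od α β i y * x + cc α β i y - (α ^ od α β i y * y + cc α β i y) =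
          α ^ od α β i y * (x - y) := by ring
      rw [e, ← pow_succ]
      exact Dvd.dvd.mul_left ((pow_dvd_pow 2 hi).trans h) _
    have hd2 : (2 : ℤ) ∣ (T α β)^[i] x - (T α β)^[i] y := by
      exact (mul_dvd_mul_iff_left (by positivity)).1 hd
    have hp : (T α β)^[i] x % 2 = (T α β)^[i] y % 2 := by omega
    rw [od, od, cc, cc, hp, h1, h2]
    exact ⟨rfl, rfl⟩

/-- the constant term of a branch with respect to two centres -/
def ec (α β : ℤ) (i : ℕ) (x k l : ℤ) : ℤ := cc α β i x + α ^ od α β i x * k - 2 ^ i * l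

lemma branch_kk {α β : ℤ} (ha : α % 2 = 1) (hb : β % 2 = 1) (i : ℕ) (x k l : ℤ) :
    2 ^ i * ((T α β)^[i] x - l) - α ^ od α β i x * (x - k) = ec α β i x k l := by
  unfold ec
  linear_combination branch ha hb x i

lemma ec_zero {α β : ℤ} (ha : α % 2 = 1) (hb : β % 2 = 1) {i : ℕ} {x k l : ℤ}
    (h : ec α β i x k l = 0) : (T α β)^[i] k = l ∧ (2 : ℤ) ^ i ∣ x - k := by
  have h1 := branch_kk ha hb i x k l
  rw [h] at h1
  have h2 : (2 : ℤ) ^ i ∣ α ^ od α β i x * (x - k) := ⟨(T α β)^[i] x - l, by linarith⟩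
  have h3 : IsCoprime ((2 : ℤ) ^ i) (α ^ od α β i x) := by
    apply IsCoprime.pow
    rw [Int.isCoprime_iff_gcd_eq_one]
    have h5 : ¬ (2 : ℤ) ∣ α := by omega
    have h6 := (Int.prime_two.coprime_iff_not_dvd (n := α)).2 h5
    exact Int.isCoprime_iff_gcd_eq_one.1 h6
  have h4 : (2 : ℤ) ^ i ∣ x - k := h3.dvd_of_dvd_mul_left h2
  refine ⟨?_, h4⟩
  obtain ⟨h5, h6⟩ := congr_branch ha hb h4 i (le_refl i)
  have h7 := branch ha hb k i
  rw [← h5, ← h6] at h7
  have h8 : (2 : ℤ) ^ i * (T α β)^[i] k = 2 ^ i * l := by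
    unfold ec at h; linarith
  exact mul_left_cancel₀ (by positivity) h8

lemma abs_pow_le {α g : ℤ} (hg : |α| = g) (hg3 : 3 ≤ g) {j w : ℕ} (hj : j ≤ w) : |α ^ j| ≤ g ^ w := by
  rw [abs_pow, hg]
  exact pow_le_pow_right₀ (by omega) hj

lemma ec_bound {α β g : ℤ} (hg : |α| = g) (hg3 : 3 ≤ g) {w i : ℕ} (hi : i ≤ w) (x : ℤ) {k l B : ℤ}
    (hk : |k| ≤ B) (hl : |l| ≤ B) : |ec α β i x k l| ≤ g ^ w * (|β| + 2 * B) := by
  have hb := cc_bound hg hg3 (β := β) x i
  have h2 : (0 : ℤ) < 2 ^ i := by positivity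
  have h3 : (2 : ℤ) ^ i ≤ g ^ i := pow_le_pow_left₀ (by norm_num) (by omega) i
  have h4 : g ^ i ≤ g ^ w := pow_le_pow_right₀ (by omega) hi
  have hB : 0 ≤ B := (abs_nonneg k).trans hk
  have hgw : 0 < g ^ w := by positivity
  have e1 : |α ^ od α β i x * k| ≤ g ^ w * B := by
    rw [abs_mul]
    exact mul_le_mul (abs_pow_le hg hg3 ((od_le α β x i).trans hi)) hk (abs_nonneg _) hgw.le
  have e2 : |(2 : ℤ) ^ i * l| ≤ g ^ w * B := by
    rw [abs_mul, abs_of_pos h2]
    exact mul_le_mul (h3.trans h4) hl (abs_nonneg _) hgw.le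
  have e3 : |ec α β i x k l| ≤ |cc α β i x| + |α ^ od α β i x * k| + |(2 : ℤ) ^ i * l| := by
    unfold ec
    refine (abs_sub _ _).trans ?_
    have := abs_add_le (cc α β i x) (α ^ od α β i x * k)
    linarith
  have e4 : |β| * (g ^ i - 2 ^ i) ≤ g ^ w * |β| := by
    rw [mul_comm (g ^ w)]
    apply mul_le_mul_of_nonneg_left _ (abs_nonneg _)
    linarith
  linarith

lemma od_add (α β : ℤ) (i l : ℕ) (x : ℤ) :
    od α β (i + l) x = od α β i x + od α β l ((T α β)^[i] x) := by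
  induction l with
  | zero => simp [od]
  | succ l ih =>
    rw [← add_assoc, od, ih, od, add_assoc]
    congr 2
    rw [← Function.iterate_add_apply, add_comm l i]

lemma ec_rel {α β : ℤ} (ha : α % 2 = 1) (hb : β % 2 = 1) {i j : ℕ} (hij : i ≤ j) (x k l r : ℤ) :
    ec α β j x k r - α ^ od α β (j - i) ((T α β)^[i] x) * ec α β i x k l =
      2 ^ i * ec α β (j - i) ((T α β)^[i] x) l r := by
  obtain ⟨q, rfl⟩ := Nat.exists_eq_add_of_le hij
  rw [Nat.add_sub_cancel_left, ← branch_kk ha hb, ← branch_kk ha hb, ← branch_kk ha hb, od_add,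
    pow_add, pow_add, ← Function.iterate_add_apply, add_comm q i]
  ring

lemma abs_T_le {α β g : ℤ} (ha : α % 2 = 1) (hb : β % 2 = 1) (hg : |α| = g) (hg3 : 3 ≤ g) (x : ℤ) :
    |T α β x| + 1 ≤ (g + |β|) * (|x| + 1) := by
  have h := two_T ha hb x
  have hx := abs_nonneg x
  have hβ := abs_nonneg β
  have h0 : 2 * |T α β x| ≤ g * |x| + |β| + |x| := by
    have e : 2 * |T α β x| = |2 * T α β x| := by rw [abs_mul]; norm_num
    rw [e, h]
    split_ifs with h1
    · nlinarith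
    · have h2 : |α * x + β| ≤ g * |x| + |β| := by
        refine (abs_add_le _ _).trans ?_
        rw [abs_mul, hg]
      linarith
  nlinarith

lemma abs_iterate_le {α β g : ℤ} (ha : α % 2 = 1) (hb : β % 2 = 1) (hg : |α| = g) (hg3 : 3 ≤ g)
    (x : ℤ) : ∀ i : ℕ, |(T α β)^[i] x| + 1 ≤ (g + |β|) ^ i * (|x| + 1) := by
  intro i
  induction i with
  | zero => simp
  | succ i ih =>
    rw [Function.iterate_succ_apply']
    refine (abs_T_le ha hb hg hg3 _).trans ?_
    have h := mul_le_mul_of_nonneg_left ih (show 0 ≤ g + |β| by linarith [abs_nonneg β])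
    rw [pow_succ]
    linarith

end Pool.Agent.V5helper5.AB
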