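import Mathlib
import Pool.Agent.V5helper5.SQ.Class
import Pool.Agent.V5helper5.AB.Row

set_option autoImplicit false

namespace Pool.Agent.V5helper5.AB

open Finset
open Pool.Agent.V5helper5.SQ (gap_two' gap_pow card_chain)

/-- a class for `m ≥ 2` and three special terms -/
lemma class_two {α β g : ℤ} (hα : α % 2 = 1) (hβ : β % 2 = 1) (hg : |α| = g) (hg3 : 3 ≤ g)
    {w i j m K : ℕ} {k1 k2 k3 s1 s2 s3 B : ℤ} (hm : 2 ≤ m) (hij : i < j) (hj : j ≤ w)
    (hk1 : |k1| ≤ B) (hk2 : |k2| ≤ B) (hk3 : |k3| ≤ B)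
    (hs1 : s1 ≠ 0) (hs2 : s2 ≠ 0) (hs3 : s3 ≠ 0) {M : ℕ} (hM : g ^ w * (|β| + 2 * B) ≤ M)
    (F : Finset ℤ) (a b c : ℤ → ℕ)
    (hcong : ∀ x ∈ F, ∀ y ∈ F, (2 : ℤ) ^ w ∣ x - y)
    (hne : ∀ x ∈ F, ec α β i x k1 k2 ≠ 0 ∧ ec α β j x k1 k3 ≠ 0 ∧ ec α β (j - i) ((T α β)^[i] x) k2 k3 ≠ 0)
    (ha : ∀ x ∈ F, x - k1 = s1 * (a x : ℤ) ^ m ∧ (T α β)^[i] x - k2 = s2 * (b x : ℤ) ^ m ∧
      (T α β)^[j] x - k3 = s3 * (c x : ℤ) ^ m)
    (hlow : ∀ x ∈ F, 2 * (6 * M ^ 2) ≤ a x) (hup : ∀ x ∈ F, |x - k1| < 2 ^ (2 ^ K)) :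
    F.card ≤ 2 * K := by
  classical
  have hB : 0 ≤ B := (abs_nonneg k1).trans hk1
  have hM1 : 1 ≤ M := by
    have h1 : (1 : ℤ) ≤ g ^ w * (|β| + 2 * B) := by
      have h2 : (1 : ℤ) ≤ g ^ w := one_le_pow₀ (by omega)
      have h3 : 1 ≤ |β| := Int.one_le_abs (by omega)
      nlinarith
    have : (1 : ℤ) ≤ M := h1.trans hM
    exact_mod_cast this
  have hMM : (M : ℤ) ≤ (M : ℤ) ^ 2 := by
    have : (1 : ℤ) ≤ M := by exact_mod_cast hM1
    nlinarith
  have hinj : Set.InjOn a F := by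
    intro x hx y hy hxy
    have h1 := (ha x hx).1
    have h2 := (ha y hy).1
    rw [hxy, ← h2] at h1
    linarith
  rw [← Finset.card_image_of_injOn hinj]
  -- sizes of the constants
  have hapos : ∀ x ∈ F, 12 * (M : ℤ) ^ 2 ≤ a x := by
    intro x hx
    have := hlow x hx
    have h : ((2 * (6 * M ^ 2) : ℕ) : ℤ) ≤ a x := by exact_mod_cast this
    push_cast at h; linarith
  have heb : ∀ x : ℤ, ∀ l, l ≤ w → ∀ κ, |κ| ≤ B → |ec α β l x k1 κ| ≤ M :=
    fun x l hl κ hκ => (ec_bound hg hg3 hl x hk1 hκ).trans hM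
  have hapow : ∀ x ∈ F, (a x : ℤ) ≤ |x - k1| := by
    intro x hx
    rw [(ha x hx).1, abs_mul]
    have h0 := hapos x hx
    have h1 : (1 : ℤ) ≤ a x := by nlinarith [hMM, hM1]
    have h2 : |(a x : ℤ) ^ m| = (a x : ℤ) ^ m := abs_of_pos (by positivity)
    rw [h2]
    have h3 : 1 ≤ |s1| := Int.one_le_abs hs1
    have h4 : (a x : ℤ) ≤ (a x : ℤ) ^ m := by
      calc (a x : ℤ) = (a x : ℤ) ^ 1 := by ring
        _ ≤ (a x : ℤ) ^ m := pow_le_pow_right₀ h1 (by omega)
    nlinarith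
  have hpos : ∀ x ∈ F, ∀ l, l ≤ w → ∀ κ, |κ| ≤ B → (T α β)^[l] x ≠ κ := by
    intro x hx l hl κ hκ h
    have h1 := branch_kk hα hβ l x k1 κ
    rw [h, sub_self, mul_zero, zero_sub] at h1
    have h2 : |α ^ od α β l x| * |x - k1| ≤ M := by
      have h3 : |α ^ od α β l x * (x - k1)| ≤ M := by
        rw [← abs_neg, h1]; exact heb x l hl κ hκ
      rwa [abs_mul] at h3
    have h4 : (1 : ℤ) ≤ |α ^ od α β l x| := Int.one_le_abs (pow_ne_zero _ (by omega))
    have h5 := hapow x hx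
    have h6 := hapos x hx
    have h7 : |x - k1| ≤ |α ^ od α β l x| * |x - k1| := by nlinarith [abs_nonneg (x - k1)]
    have h8 : (0 : ℤ) < M := by exact_mod_cast hM1
    nlinarith
  have hbpos : ∀ x ∈ F, 0 < (b x : ℤ) := by
    intro x hx
    rcases Nat.eq_zero_or_pos (b x) with h | h
    · exfalso
      have h1 := (ha x hx).2.1
      rw [h, Nat.cast_zero, zero_pow (by omega), mul_zero] at h1
      exact hpos x hx i (by omega) k2 hk2 (by linarith)
    · exact_mod_cast h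
  have hcpos : ∀ x ∈ F, 0 < (c x : ℤ) := by
    intro x hx
    rcases Nat.eq_zero_or_pos (c x) with h | h
    · exfalso
      have h1 := (ha x hx).2.2
      rw [h, Nat.cast_zero, zero_pow (by omega), mul_zero] at h1
      exact hpos x hx j hj k3 hk3 (by linarith)
    · exact_mod_cast h
  apply card_chain (E := 6 * M ^ 2) (by nlinarith [hM1])
  · intro a' ha' b' hb' c' hc' hab hbc
    obtain ⟨x, hx, rfl⟩ := Finset.mem_image.1 ha'
    obtain ⟨y, hy, rfl⟩ := Finset.mem_image.1 hb'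
    obtain ⟨z, hz, rfl⟩ := Finset.mem_image.1 hc'
    -- common branches
    have hyx := fun l hl => congr_branch hα hβ (hcong y hy x hx) l hl
    have hzx := fun l hl => congr_branch hα hβ (hcong z hz x hx) l hl
    have eky : ∀ l, l ≤ w → ∀ κ, ec α β l y k1 κ = ec α β l x k1 κ := by
      intro l hl κ; unfold ec; rw [(hyx l hl).1, (hyx l hl).2]
    have ekz : ∀ l, l ≤ w → ∀ κ, ec α β l z k1 κ = ec α β l x k1 κ := by
      intro l hl κ; unfold ec; rw [(hzx l hl).1, (hzx l hl).2]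
    have hi : i ≤ w := by omega
    set e1 := ec α β i x k1 k2 with he1
    set e2 := ec α β j x k1 k3 with he2
    obtain ⟨n1, n2, n3⟩ := hne x hx
    have hE1 := heb x i hi k2 hk2
    have hE2 := heb x j hj k3 hk3
    rw [← he1] at hE1 n1
    rw [← he2] at hE2 n2
    -- the equations
    have eqn1 : ∀ u, u ∈ F → ec α β i u k1 k2 = e1 → od α β i u = od α β i x →
        (2 ^ i * s2) * (b u : ℤ) ^ m - (α ^ od α β i x * s1) * (a u : ℤ) ^ m = e1 := by
      intro u hu h1 h2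
      have h3 := branch_kk hα hβ i u k1 k2
      rw [(ha u hu).1, (ha u hu).2.1, h1, h2] at h3
      linarith
    have eqn2 : ∀ u, u ∈ F → ec α β j u k1 k3 = e2 → od α β j u = od α β j x →
        (2 ^ j * s3) * (c u : ℤ) ^ m - (α ^ od α β j x * s1) * (a u : ℤ) ^ m = e2 := by
      intro u hu h1 h2
      have h3 := branch_kk hα hβ j u k1 k3
      rw [(ha u hu).1, (ha u hu).2.2, h1, h2] at h3
      linarith
    have px := eqn1 x hx rfl rfl
    have py := eqn1 y hy (eky i hi k2) (hyx i hi).1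
    have pz := eqn1 z hz (ekz i hi k2) (hzx i hi).1
    have qx := eqn2 x hx rfl rfl
    have qy := eqn2 y hy (eky j hj k3) (hyx j hj).1
    have qz := eqn2 z hz (ekz j hj k3) (hzx j hj).1
    have hP : (2 : ℤ) ^ i * s2 ≠ 0 := mul_ne_zero (by positivity) hs2
    have hQ : α ^ od α β i x * s1 ≠ 0 := mul_ne_zero (pow_ne_zero _ (by omega)) hs1
    have hR : (2 : ℤ) ^ j * s3 ≠ 0 := mul_ne_zero (by positivity) hs3
    have hS : α ^ od α β j x * s1 ≠ 0 := mul_ne_zero (pow_ne_zero _ (by omega)) hs1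
    have hM0 : (0 : ℤ) < M := by exact_mod_cast hM1
    have h0x := hapos x hx
    have h0y := hapos y hy
    have h0z := hapos z hz
    have hab' : (a x : ℤ) < a y := by exact_mod_cast hab
    have hbc' : (a y : ℤ) < a z := by exact_mod_cast hbc
    have hax : (0 : ℤ) < a x := by nlinarith
    have hay : (0 : ℤ) < a y := by nlinarith
    have goal : (a x : ℤ) * a y ≤ 6 * (M : ℤ) ^ 2 * a z := by
      rcases Nat.lt_or_ge m 3 with hm3 | hm3
      · have hm2 : m = 2 := by omega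
        rw [hm2] at px py pz qx qy qz
        have hne' : (α ^ od α β i x * s1) * e2 ≠ (α ^ od α β j x * s1) * e1 := by
          intro h
          have hr := ec_rel hα hβ hij.le x k1 k2 k3
          have ho : od α β j x = od α β i x + od α β (j - i) ((T α β)^[i] x) := by
            rw [← od_add]; congr 1; omega
          rw [ho, pow_add] at h
          have h2 : α ^ od α β i x * s1 * (2 ^ i * ec α β (j - i) ((T α β)^[i] x) k2 k3) = 0 := by
            rw [← hr]; linear_combination h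
          rcases mul_eq_zero.1 h2 with h3 | h3
          · exact hQ h3
          · rcases mul_eq_zero.1 h3 with h4 | h4
            · exact absurd h4 (by positivity)
            · exact n3 h4
        have hbig : (M : ℤ) < (a x : ℤ) ^ 2 := by nlinarith
        have hgap := gap_two' n1 n2 hP hQ hR hS hne' hax (hbpos x hx) (hbpos y hy) (hbpos z hz)
          (hcpos x hx) (hcpos y hy) (hcpos z hz) hab' hbc' px py pz qx qy qz
          (lt_of_le_of_lt hE1 hbig) (lt_of_le_of_lt hE2 hbig)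
        refine hgap.trans ?_
        have h1 : |e1| * |e2| ≤ (M : ℤ) * M := mul_le_mul hE1 hE2 (abs_nonneg _) hM0.le
        have h2 : (0 : ℤ) ≤ a z := by positivity
        nlinarith [mul_le_mul_of_nonneg_right h1 h2]
      · have hbig : 2 * |e1| ≤ a z := by nlinarith
        have hgap := gap_pow hm3 n1 hQ hay (hbpos y hy) (hbpos z hz) hbc' py pz hbig
        have h2 : (0 : ℤ) ≤ a z := by positivity
        have h3 : 2 * |e1| * a z ≤ 6 * (M : ℤ) ^ 2 * a z := by
          apply mul_le_mul_of_nonneg_right _ h2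
          nlinarith
        nlinarith
    exact_mod_cast goal
  · intro a' ha'
    obtain ⟨x, hx, rfl⟩ := Finset.mem_image.1 ha'
    exact hlow x hx
  · intro a' ha'
    obtain ⟨x, hx, rfl⟩ := Finset.mem_image.1 ha'
    have h1 : (a x : ℤ) < 2 ^ (2 ^ K) := lt_of_le_of_lt (hapow x hx) (hup x hx)
    exact_mod_cast h1

/-- a class for `m ≥ 3` and two special terms -/
lemma class_three {α β g : ℤ} (hα : α % 2 = 1) (hβ : β % 2 = 1) (hg : |α| = g) (hg3 : 3 ≤ g)
    {w i m K : ℕ} {k1 k2 s1 s2 B : ℤ} (hm : 3 ≤ m) (hi : i ≤ w)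
    (hk1 : |k1| ≤ B) (hk2 : |k2| ≤ B) (hs1 : s1 ≠ 0)
    {M : ℕ} (hM : g ^ w * (|β| + 2 * B) ≤ M)
    (F : Finset ℤ) (a b : ℤ → ℕ)
    (hcong : ∀ x ∈ F, ∀ y ∈ F, (2 : ℤ) ^ w ∣ x - y)
    (hne : ∀ x ∈ F, ec α β i x k1 k2 ≠ 0)
    (ha : ∀ x ∈ F, x - k1 = s1 * (a x : ℤ) ^ m ∧ (T α β)^[i] x - k2 = s2 * (b x : ℤ) ^ m)
    (hlow : ∀ x ∈ F, 2 * (2 * M) ≤ a x) (hup : ∀ x ∈ F, |x - k1| < 2 ^ (2 ^ K)) :
    F.card ≤ 2 * K := by
  classical
  have hB : 0 ≤ B := (abs_nonneg k1).trans hk1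
  have hM1 : 1 ≤ M := by
    have h1 : (1 : ℤ) ≤ g ^ w * (|β| + 2 * B) := by
      have h2 : (1 : ℤ) ≤ g ^ w := one_le_pow₀ (by omega)
      have h3 : 1 ≤ |β| := Int.one_le_abs (by omega)
      nlinarith
    have : (1 : ℤ) ≤ M := h1.trans hM
    exact_mod_cast this
  have hinj : Set.InjOn a F := by
    intro x hx y hy hxy
    have h1 := (ha x hx).1
    have h2 := (ha y hy).1
    rw [hxy, ← h2] at h1
    linarith
  rw [← Finset.card_image_of_injOn hinj]
  have hM0 : (1 : ℤ) ≤ M := by exact_mod_cast hM1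
  have hapos : ∀ x ∈ F, 4 * (M : ℤ) ≤ a x := by
    intro x hx
    have := hlow x hx
    have h : ((2 * (2 * M) : ℕ) : ℤ) ≤ a x := by exact_mod_cast this
    push_cast at h; linarith
  have heb : ∀ x : ℤ, ∀ l, l ≤ w → ∀ κ, |κ| ≤ B → |ec α β l x k1 κ| ≤ M :=
    fun x l hl κ hκ => (ec_bound hg hg3 hl x hk1 hκ).trans hM
  have hapow : ∀ x ∈ F, (a x : ℤ) ≤ |x - k1| := by
    intro x hx
    rw [(ha x hx).1, abs_mul]
    have h0 := hapos x hx
    have h1 : (1 : ℤ) ≤ a x := by linarith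
    have h2 : |(a x : ℤ) ^ m| = (a x : ℤ) ^ m := abs_of_pos (by positivity)
    rw [h2]
    have h3 : 1 ≤ |s1| := Int.one_le_abs hs1
    have h4 : (a x : ℤ) ≤ (a x : ℤ) ^ m := by
      calc (a x : ℤ) = (a x : ℤ) ^ 1 := by ring
        _ ≤ (a x : ℤ) ^ m := pow_le_pow_right₀ h1 (by omega)
    nlinarith
  have hpos : ∀ x ∈ F, ∀ l, l ≤ w → ∀ κ, |κ| ≤ B → (T α β)^[l] x ≠ κ := by
    intro x hx l hl κ hκ h
    have h1 := branch_kk hα hβ l x k1 κ
    rw [h, sub_self, mul_zero, zero_sub] at h1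
    have h2 : |α ^ od α β l x| * |x - k1| ≤ M := by
      have h3 : |α ^ od α β l x * (x - k1)| ≤ M := by
        rw [← abs_neg, h1]; exact heb x l hl κ hκ
      rwa [abs_mul] at h3
    have h4 : (1 : ℤ) ≤ |α ^ od α β l x| := Int.one_le_abs (pow_ne_zero _ (by omega))
    have h5 := hapow x hx
    have h6 := hapos x hx
    have h7 : |x - k1| ≤ |α ^ od α β l x| * |x - k1| := by nlinarith [abs_nonneg (x - k1)]
    nlinarith
  have hbpos : ∀ x ∈ F, 0 < (b x : ℤ) := by
    intro x hx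
    rcases Nat.eq_zero_or_pos (b x) with h | h
    · exfalso
      have h1 := (ha x hx).2
      rw [h, Nat.cast_zero, zero_pow (by omega), mul_zero] at h1
      exact hpos x hx i (by omega) k2 hk2 (by linarith)
    · exact_mod_cast h
  apply card_chain (E := 2 * M) (by omega)
  · intro a' ha' b' hb' c' hc' hab hbc
    obtain ⟨x, hx, rfl⟩ := Finset.mem_image.1 ha'
    obtain ⟨y, hy, rfl⟩ := Finset.mem_image.1 hb'
    obtain ⟨z, hz, rfl⟩ := Finset.mem_image.1 hc'
    have hyx := fun l hl => congr_branch hα hβ (hcong y hy x hx) l hl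
    have hzx := fun l hl => congr_branch hα hβ (hcong z hz x hx) l hl
    have eky : ec α β i y k1 k2 = ec α β i x k1 k2 := by
      unfold ec; rw [(hyx i hi).1, (hyx i hi).2]
    have ekz : ec α β i z k1 k2 = ec α β i x k1 k2 := by
      unfold ec; rw [(hzx i hi).1, (hzx i hi).2]
    set e1 := ec α β i x k1 k2 with he1
    have n1 := hne x hx
    have hE1 := heb x i hi k2 hk2
    rw [← he1] at hE1 n1
    have eqn1 : ∀ u, u ∈ F → ec α β i u k1 k2 = e1 → od α β i u = od α β i x →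
        (2 ^ i * s2) * (b u : ℤ) ^ m - (α ^ od α β i x * s1) * (a u : ℤ) ^ m = e1 := by
      intro u hu h1 h2
      have h3 := branch_kk hα hβ i u k1 k2
      rw [(ha u hu).1, (ha u hu).2, h1, h2] at h3
      linarith
    have py := eqn1 y hy eky (hyx i hi).1
    have pz := eqn1 z hz ekz (hzx i hi).1
    have hQ : α ^ od α β i x * s1 ≠ 0 := mul_ne_zero (pow_ne_zero _ (by omega)) hs1
    have h0x := hapos x hx
    have h0y := hapos y hy
    have h0z := hapos z hz
    have hab' : (a x : ℤ) < a y := by exact_mod_cast hab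
    have hbc' : (a y : ℤ) < a z := by exact_mod_cast hbc
    have hax : (0 : ℤ) < a x := by linarith
    have hay : (0 : ℤ) < a y := by linarith
    have goal : (a x : ℤ) * a y ≤ 2 * (M : ℤ) * a z := by
      have hbig : 2 * |e1| ≤ a z := by linarith
      have hgap := gap_pow hm n1 hQ hay (hbpos y hy) (hbpos z hz) hbc' py pz hbig
      have h2 : (0 : ℤ) ≤ a z := by positivity
      have h3 : 2 * |e1| * a z ≤ 2 * (M : ℤ) * a z := by
        apply mul_le_mul_of_nonneg_right _ h2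
        linarith
      nlinarith
    exact_mod_cast goal
  · intro a' ha'
    obtain ⟨x, hx, rfl⟩ := Finset.mem_image.1 ha'
    exact hlow x hx
  · intro a' ha'
    obtain ⟨x, hx, rfl⟩ := Finset.mem_image.1 ha'
    have h1 : (a x : ℤ) < 2 ^ (2 ^ K) := lt_of_le_of_lt (hapow x hx) (hup x hx)
    exact_mod_cast h1

end Pool.Agent.V5helper5.AB
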