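import Mathlib
import Pool.Agent.V5helper5.AB.Asym

set_option autoImplicit false

namespace Pool.Agent.V5helper5.AB

open Finset Filter

/-- cycles -/
def IsCyc (α β : ℤ) (Z : Finset ℤ) : Prop :=
  ∃ (x : ℤ) (p : ℕ), 1 ≤ p ∧ (T α β)^[p] x = x ∧
    Z = (Finset.range p).image fun i => (T α β)^[i] x

lemma abs_le_of_period {α β : ℤ} (hα : α % 2 = 1) (hβ : β % 2 = 1) {g : ℤ} (hg : |α| = g)
    (hg3 : 3 ≤ g) {x : ℤ} {p : ℕ} (hp : 1 ≤ p) (hx : (T α β)^[p] x = x) : |x| ≤ |β| * g ^ p := by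
  have h1 := branch hα hβ x p
  rw [hx] at h1
  have h2 : ((2 : ℤ) ^ p - α ^ od α β p x) * x = cc α β p x := by linarith
  have h3 := cc_bound hg hg3 (β := β) x p
  have hne : (2 : ℤ) ^ p - α ^ od α β p x ≠ 0 := by
    intro h
    have h4 : (2 : ℤ) ∣ α ^ od α β p x := by
      have : α ^ od α β p x = 2 ^ p := by linarith
      rw [this]; exact dvd_pow_self 2 (by omega)
    have h5 : (2 : ℤ) ∣ α := Int.prime_two.dvd_of_dvd_pow h4
    omega
  have h6 : 1 ≤ |(2 : ℤ) ^ p - α ^ od α β p x| := Int.one_le_abs hne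
  have h7 : |(2 : ℤ) ^ p - α ^ od α β p x| * |x| ≤ |β| * g ^ p := by
    rw [← abs_mul, h2]
    refine h3.trans ?_
    apply mul_le_mul_of_nonneg_left _ (abs_nonneg _)
    have : (0 : ℤ) < 2 ^ p := by positivity
    linarith
  nlinarith [abs_nonneg x]

lemma cyc_data {α β : ℤ} (hα : α % 2 = 1) (hβ : β % 2 = 1) {g : ℤ} (hg : |α| = g)
    (hg3 : 3 ≤ g) {Z : Finset ℤ} (hZ : IsCyc α β Z) :
    ∃ x : ℤ, 1 ≤ Z.card ∧ (T α β)^[Z.card] x = x ∧
    Set.InjOn (fun i => (T α β)^[i] x) (range Z.card : Finset ℕ) ∧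
    Z = (Finset.range Z.card).image (fun i => (T α β)^[i] x) ∧ |x| ≤ |β| * g ^ Z.card := by
  obtain ⟨x, p, hp, hx, rfl⟩ := hZ
  set q := Function.minimalPeriod (T α β) x with hq
  have hper : Function.IsPeriodicPt (T α β) p x := hx
  have hq0 : 0 < q := Function.IsPeriodicPt.minimalPeriod_pos (by omega) hper
  have hqp : q ∣ p := hper.minimalPeriod_dvd
  have hinj : Set.InjOn (fun i => (T α β)^[i] x) (range q : Finset ℕ) := by
    intro i hi j hj hij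
    rw [Finset.coe_range] at hi hj
    exact Function.iterate_injOn_Iio_minimalPeriod hi hj hij
  have himg : (Finset.range p).image (fun i => (T α β)^[i] x) =
      (Finset.range q).image (fun i => (T α β)^[i] x) := by
    ext y
    simp only [Finset.mem_image, Finset.mem_range]
    constructor
    · rintro ⟨i, _, rfl⟩
      exact ⟨i % q, Nat.mod_lt _ hq0, Function.iterate_mod_minimalPeriod_eq⟩
    · rintro ⟨i, hi, rfl⟩
      exact ⟨i, lt_of_lt_of_le hi (Nat.le_of_dvd (by omega) hqp), rfl⟩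
  have hcard : ((Finset.range p).image (fun i => (T α β)^[i] x)).card = q := by
    rw [himg, Finset.card_image_of_injOn hinj, Finset.card_range]
  have hxq : (T α β)^[q] x = x := Function.isPeriodicPt_minimalPeriod (T α β) x
  refine ⟨x, ?_, ?_, ?_, ?_, ?_⟩
  · rw [hcard]; exact hq0
  · rw [hcard]; exact hxq
  · rw [hcard]; exact hinj
  · rw [hcard]; exact himg
  · rw [hcard]; exact abs_le_of_period hα hβ hg hg3 hq0 hxq

lemma one_le_div_log {n : ℕ} (hn : 2 ≤ n) : 1 ≤ (n : ℝ) / Real.log n := by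
  have hnR : (2 : ℝ) ≤ n := by exact_mod_cast hn
  have hn0 : (0 : ℝ) < n := by linarith
  have hL0 : 0 < Real.log n := Real.log_pos (by linarith)
  have := Real.log_le_sub_one_of_pos hn0
  rw [le_div_iff₀ hL0]; linarith

lemma large_pow {ε B : ℝ} (hε : 0 < ε) (hB : 1 ≤ B) : ∃ p0 : ℕ, ∀ p : ℕ, p0 ≤ p →
    B ^ p ≤ Real.exp (Real.exp ((p : ℝ) ^ ε)) := by
  set A : ℝ := Real.log B + 1 with hA
  have hA1 : 1 ≤ A := by
    have := Real.log_nonneg hB
    linarith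
  have h1 : Tendsto (fun p : ℕ => ((p : ℝ)) ^ (ε / 2)) atTop atTop :=
    (tendsto_rpow_atTop (by positivity)).comp tendsto_natCast_atTop_atTop
  obtain ⟨p0, hp0⟩ := eventually_atTop.1 (h1.eventually_ge_atTop (2 / ε + A))
  refine ⟨p0 + 1, fun p hp => ?_⟩
  have h2 := hp0 p (by omega)
  have hpR : (1 : ℝ) ≤ p := by exact_mod_cast (by omega : 1 ≤ p)
  have hp0' : (0 : ℝ) < p := by linarith
  have h3 : Real.log p ≤ (p : ℝ) ^ (ε / 2) / (ε / 2) := Real.log_le_rpow_div hp0'.le (by positivity)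
  have h4 : (p : ℝ) ^ ε = (p : ℝ) ^ (ε / 2) * (p : ℝ) ^ (ε / 2) := by
    rw [← Real.rpow_add hp0']; congr 1; ring
  have h5 : 1 ≤ (p : ℝ) ^ (ε / 2) := Real.one_le_rpow hpR (by positivity)
  have h6 : Real.log p + A ≤ (p : ℝ) ^ ε := by
    have e1 : (p : ℝ) ^ (ε / 2) / (ε / 2) = (2 / ε) * (p : ℝ) ^ (ε / 2) := by field_simp
    rw [e1] at h3
    rw [h4]
    nlinarith
  have h7 : p * Real.log B ≤ Real.exp ((p : ℝ) ^ ε) := by
    have h8 : Real.log B ≤ Real.exp A := by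
      have := Real.add_one_le_exp A
      linarith
    calc p * Real.log B ≤ p * Real.exp A := mul_le_mul_of_nonneg_left h8 hp0'.le
      _ = Real.exp (Real.log p + A) := by rw [Real.exp_add (Real.log p), Real.exp_log hp0']
      _ ≤ _ := Real.exp_le_exp.2 h6
  calc B ^ p = Real.exp (p * Real.log B) := by
        rw [Real.exp_nat_mul, Real.exp_log (by linarith)]
    _ ≤ _ := Real.exp_le_exp.2 h7

theorem cyc_all {α : ℤ} (hα : α % 2 = 1) {g : ℕ} (hg : |α| = g) (hg3 : 3 ≤ g)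
    (r : ℕ) (hr : r = 2 ∨ r = 3) {c d : ℝ} (hc0 : 0 ≤ c) (hd0 : 0 ≤ d)
    (h1 : r * c < 1) (h2 : c + (r - 1 : ℕ) * d < 1) :
    ∃ C : ℝ, 0 < C ∧ ∀ β : ℤ, β % 2 = 1 →
      ∀ m : ℕ, 5 ≤ m + r → 2 ≤ m → ∀ Z : Finset ℤ, IsCyc α β Z → 2 ≤ Z.card →
      |(β : ℝ)| ≤ (Z.card : ℝ) ^ d →
      ∀ P : Finset (ℤ × ℤ), (P.card : ℝ) ≤ (Z.card : ℝ) ^ c →
      (∀ q ∈ P, |(q.1 : ℝ)| ≤ (Z.card : ℝ) ^ d) →
      ∀ F : Finset ℤ, F ⊆ Z → (∀ y ∈ F, Sp2 α β P m y) →
        (F.card : ℝ) ≤ C * (Z.card / Real.log Z.card) := by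
  classical
  set ε : ℝ := (1 - r * c) / 2 with hε
  have hε0 : 0 < ε := by rw [hε]; linarith
  obtain ⟨C, hC0, hC⟩ := asym_all hα hg hg3 r hr hc0 hd0 hε0 (by rw [hε]; linarith) h2
  have hgR : (3 : ℝ) ≤ g := by exact_mod_cast hg3
  obtain ⟨p0, hp0⟩ := large_pow hε0 (B := 2 * g) (by linarith)
  refine ⟨C + p0, by positivity, ?_⟩
  intro β hβ m hmr hm Z hZ hZ2 hβZ P hP hB F hF hsp
  have hlog := one_le_div_log hZ2
  have hlog0 : 0 ≤ (Z.card : ℝ) / Real.log Z.card := by linarith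
  rcases lt_or_ge Z.card p0 with hlt | hge
  · have h3 : (F.card : ℝ) ≤ p0 := by
      have h4 := Finset.card_le_card hF
      exact_mod_cast (by omega : F.card ≤ p0)
    nlinarith
  · obtain ⟨x, hp1, hx, hinj, himg, hxb⟩ :=
      cyc_data hα hβ hg (by exact_mod_cast hg3 : (3 : ℤ) ≤ (g : ℤ)) hZ
    set p := Z.card with hp
    have hpR : (2 : ℝ) ≤ p := by exact_mod_cast hZ2
    have hr1 : 1 ≤ ((r - 1 : ℕ) : ℝ) := by
      rcases hr with h | h <;> rw [h] <;> norm_num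
    have hd1 : d ≤ 1 := by nlinarith
    have hβp : |(β : ℝ)| ≤ (2 : ℝ) ^ p := by
      have h3 : (p : ℝ) ^ d ≤ p := by
        calc (p : ℝ) ^ d ≤ (p : ℝ) ^ (1 : ℝ) := Real.rpow_le_rpow_of_exponent_le (by linarith) hd1
          _ = p := Real.rpow_one _
      have h4 : (p : ℝ) ≤ 2 ^ p := by exact_mod_cast Nat.lt_two_pow_self.le
      linarith
    have hxe : |(x : ℝ)| ≤ Real.exp (Real.exp ((p : ℝ) ^ ε)) := by
      have h1 : |(x : ℝ)| ≤ |(β : ℝ)| * (g : ℝ) ^ p := by exact_mod_cast hxb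
      refine (h1.trans ?_).trans (hp0 p hge)
      rw [mul_pow]
      exact mul_le_mul_of_nonneg_right hβp (by positivity)
    set S := (range p).filter (fun t => (T α β)^[t] x ∈ F) with hS
    have hFS : F = S.image (fun t => (T α β)^[t] x) := by
      ext y
      simp only [hS, Finset.mem_image, Finset.mem_filter, Finset.mem_range]
      constructor
      · intro hy
        have h1 : y ∈ (Finset.range p).image (fun i => (T α β)^[i] x) := himg ▸ hF hy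
        obtain ⟨t, ht, rfl⟩ := Finset.mem_image.1 h1
        exact ⟨t, ⟨Finset.mem_range.1 ht, hy⟩, rfl⟩
      · rintro ⟨t, ⟨_, h⟩, rfl⟩
        exact h
    have hle : F.card ≤ S.card := by
      rw [hFS]; exact Finset.card_image_le
    have := hC β hβ m hmr hm P x p hZ2 hβZ hP hB hxe hinj S (Finset.filter_subset _ _)
      (fun t ht => hsp _ (Finset.mem_filter.1 ht).2)
    have h5 : (F.card : ℝ) ≤ S.card := by exact_mod_cast hle
    have h6 : 0 ≤ (p0 : ℝ) * (p / Real.log p) := mul_nonneg (Nat.cast_nonneg _) hlog0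
    nlinarith

/-- from pairs to near values; common part for cycles and trajectories -/
lemma near_pairs (r : ℕ) (hr : r = 2 ∨ r = 3) {c d : ℝ} (hc0 : 0 ≤ c) (hd0 : 0 ≤ d)
    (h1 : r * (c + d) < 1) : ∃ (c' : ℝ) (p0 : ℕ), 0 ≤ c' ∧ r * c' < 1 ∧ c' + (r - 1 : ℕ) * d < 1 ∧
    ∀ p : ℕ, 2 ≤ p → p0 ≤ p → ∀ Q : Finset ℤ, (Q.card : ℝ) ≤ (p : ℝ) ^ c →
      ∃ P : Finset (ℤ × ℤ), (P.card : ℝ) ≤ (p : ℝ) ^ c' ∧ (∀ q ∈ P, |(q.1 : ℝ)| ≤ (p : ℝ) ^ d) ∧
        ∀ (α β : ℤ) (m : ℕ) (y : ℤ), (∃ s ∈ Q, ∃ a : ℤ, (s * a ^ m) % 2 = 1 ∧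
          |(y : ℝ) - s * a ^ m| ≤ (p : ℝ) ^ d) → Sp2 α β P m y := by
  classical
  have hr0 : (2 : ℝ) ≤ r := by rcases hr with h | h <;> rw [h] <;> norm_num
  have hr' : (((r - 1 : ℕ) : ℝ)) = r - 1 := by
    rcases hr with h | h <;> rw [h] <;> norm_num
  have hcd : c + d < 1 / r := by
    rw [lt_div_iff₀ (by linarith)]; linarith
  set γ : ℝ := (1 / r - (c + d)) / 2 with hγ
  have hγ0 : 0 < γ := by rw [hγ]; linarith
  set c' : ℝ := c + d + γ with hc'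
  have hc'1 : c' < 1 / r := by rw [hc', hγ]; linarith
  have hrc' : r * c' < 1 := by
    rw [lt_div_iff₀ (by linarith)] at hc'1; linarith
  have hd1 : d < 1 / r := by linarith
  have h2' : c' + (r - 1 : ℕ) * d < 1 := by
    rw [hr']
    have h3 : (r - 1) * d ≤ (r - 1) * (1 / r) := mul_le_mul_of_nonneg_left hd1.le (by linarith)
    have h4 : 1 / r + (r - 1) * (1 / r) = (1 : ℝ) := by
      field_simp
      ring
    linarith
  have ht : Tendsto (fun p : ℕ => ((p : ℝ)) ^ γ) atTop atTop :=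
    (tendsto_rpow_atTop hγ0).comp tendsto_natCast_atTop_atTop
  obtain ⟨p0, hp0⟩ := eventually_atTop.1 (ht.eventually_ge_atTop 3)
  refine ⟨c', p0, by positivity, hrc', h2', ?_⟩
  intro p hp2 hge Q hQ
  have h3 := hp0 p hge
  have hpR : (2 : ℝ) ≤ p := by exact_mod_cast hp2
  have hp0R : (0 : ℝ) < p := by linarith
  set D : ℕ := ⌊(p : ℝ) ^ d⌋₊ with hD
  have hDle : (D : ℝ) ≤ (p : ℝ) ^ d := Nat.floor_le (by positivity)
  have hpd : 1 ≤ (p : ℝ) ^ d := Real.one_le_rpow (by linarith) hd0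
  set P : Finset (ℤ × ℤ) := (Finset.Icc (-(D : ℤ)) D) ×ˢ Q with hPdef
  have hPc : (P.card : ℝ) ≤ (p : ℝ) ^ c' := by
    have e1 : P.card = (2 * D + 1) * Q.card := by
      rw [hPdef, Finset.card_product, Int.card_Icc]
      congr 1; omega
    rw [e1]; push_cast
    calc (2 * (D : ℝ) + 1) * Q.card ≤ (3 * (p : ℝ) ^ d) * (p : ℝ) ^ c := by
          apply mul_le_mul _ hQ (Nat.cast_nonneg _) (by positivity)
          linarith
      _ = 3 * ((p : ℝ) ^ d * (p : ℝ) ^ c) := by ring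
      _ ≤ (p : ℝ) ^ γ * ((p : ℝ) ^ d * (p : ℝ) ^ c) :=
          mul_le_mul_of_nonneg_right h3 (by positivity)
      _ = (p : ℝ) ^ c' := by
          rw [← Real.rpow_add hp0R, ← Real.rpow_add hp0R]; congr 1; rw [hc']; ring
  have hB : ∀ q ∈ P, |(q.1 : ℝ)| ≤ (p : ℝ) ^ d := by
    intro q hq
    have h4 := (Finset.mem_product.1 hq).1
    rw [Finset.mem_Icc] at h4
    have h5 : |q.1| ≤ (D : ℤ) := abs_le.2 h4
    have h6 : |(q.1 : ℝ)| ≤ D := by exact_mod_cast h5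
    linarith
  refine ⟨P, hPc, hB, ?_⟩
  rintro α β m y ⟨s, hs, a, hodd, hya⟩
  refine ⟨y - s * a ^ m, s, a, ?_, ?_, by ring, ?_⟩
  · rw [hPdef, Finset.mem_product]
    refine ⟨?_, hs⟩
    have h4 : |y - s * a ^ m| ≤ (D : ℤ) := by
      have h5 : ((y - s * a ^ m).natAbs : ℝ) ≤ (p : ℝ) ^ d := by
        rw [Nat.cast_natAbs, Int.cast_abs]; push_cast; exact hya
      have h6 : (y - s * a ^ m).natAbs ≤ ⌊(p : ℝ) ^ d⌋₊ := Nat.le_floor h5
      have h7 : (((y - s * a ^ m).natAbs : ℕ) : ℤ) ≤ (⌊(p : ℝ) ^ d⌋₊ : ℤ) := by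
        exact_mod_cast h6
      rwa [Int.natCast_natAbs] at h7
    exact Finset.mem_Icc.2 (abs_le.1 h4)
  · rintro rfl
    rw [zero_mul] at hodd
    omega
  · intro i hi _ hd2
    have h4 : (2 : ℤ) ∣ y - (y - s * a ^ m) := (dvd_pow_self 2 (by omega)).trans hd2
    have h5 : y - (y - s * a ^ m) = s * a ^ m := by ring
    rw [h5] at h4
    omega

theorem near_all {α : ℤ} (hα : α % 2 = 1) {g : ℕ} (hg : |α| = g) (hg3 : 3 ≤ g)
    (r : ℕ) (hr : r = 2 ∨ r = 3) {c d : ℝ} (hc0 : 0 ≤ c) (hd0 : 0 ≤ d)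
    (h1 : r * (c + d) < 1) :
    ∃ C : ℝ, 0 < C ∧ ∀ β : ℤ, β % 2 = 1 →
      ∀ m : ℕ, 5 ≤ m + r → 2 ≤ m → ∀ Z : Finset ℤ, IsCyc α β Z → 2 ≤ Z.card →
      |(β : ℝ)| ≤ (Z.card : ℝ) ^ d →
      ∀ Q : Finset ℤ, (Q.card : ℝ) ≤ (Z.card : ℝ) ^ c →
      ∀ F : Finset ℤ, F ⊆ Z → (∀ y ∈ F, ∃ s ∈ Q, ∃ a : ℤ, (s * a ^ m) % 2 = 1 ∧
          |(y : ℝ) - s * a ^ m| ≤ (Z.card : ℝ) ^ d) →
        (F.card : ℝ) ≤ C * (Z.card / Real.log Z.card) := by
  classical
  obtain ⟨c', p0, hc'0, h2, h3, hP⟩ := near_pairs r hr hc0 hd0 h1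
  obtain ⟨C, hC0, hC⟩ := cyc_all hα hg hg3 r hr hc'0 hd0 h2 h3
  refine ⟨C + p0, by positivity, ?_⟩
  intro β hβ m hmr hm Z hZ hZ2 hβZ Q hQ F hF hsp
  have hlog := one_le_div_log hZ2
  have hlog0 : 0 ≤ (Z.card : ℝ) / Real.log Z.card := by linarith
  rcases lt_or_ge Z.card p0 with hlt | hge
  · have h3 : (F.card : ℝ) ≤ p0 := by
      have h4 := Finset.card_le_card hF
      exact_mod_cast (by omega : F.card ≤ p0)
    nlinarith
  · obtain ⟨P, hPc, hB, hsp'⟩ := hP Z.card hZ2 hge Q hQ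
    have := hC β hβ m hmr hm Z hZ hZ2 hβZ P hPc hB F hF (fun y hy => hsp' α β m y (hsp y hy))
    have h6 : 0 ≤ (p0 : ℝ) * (Z.card / Real.log Z.card) := mul_nonneg (Nat.cast_nonneg _) hlog0
    nlinarith

/-- trajectories -/
theorem near_traj {α : ℤ} (hα : α % 2 = 1) {g : ℕ} (hg : |α| = g) (hg3 : 3 ≤ g)
    (r : ℕ) (hr : r = 2 ∨ r = 3) {c d : ℝ} (hc0 : 0 ≤ c) (hd0 : 0 ≤ d)
    (h1 : r * (c + d) < 1) :
    ∃ C ε : ℝ, 0 < C ∧ 0 < ε ∧ ∀ β : ℤ, β % 2 = 1 →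
      ∀ m : ℕ, 5 ≤ m + r → 2 ≤ m → ∀ (x : ℤ) (n : ℕ), 2 ≤ n → |(β : ℝ)| ≤ (n : ℝ) ^ d →
      |(x : ℝ)| ≤ Real.exp (Real.exp ((n : ℝ) ^ ε)) →
      Set.InjOn (fun i => (T α β)^[i] x) (range n : Finset ℕ) →
      ∀ Q : Finset ℤ, (Q.card : ℝ) ≤ (n : ℝ) ^ c →
      ∀ F : Finset ℕ, F ⊆ range n → (∀ t ∈ F, ∃ s ∈ Q, ∃ a : ℤ, (s * a ^ m) % 2 = 1 ∧
          |(((T α β)^[t] x : ℤ) : ℝ) - s * a ^ m| ≤ (n : ℝ) ^ d) →
        (F.card : ℝ) ≤ C * (n / Real.log n) := by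
  classical
  obtain ⟨c', p0, hc'0, h2, h3, hP⟩ := near_pairs r hr hc0 hd0 h1
  set ε : ℝ := (1 - r * c') / 2 with hε
  have hε0 : 0 < ε := by rw [hε]; linarith
  obtain ⟨C, hC0, hC⟩ := asym_all hα hg hg3 r hr hc'0 hd0 hε0 (by rw [hε]; linarith) h3
  refine ⟨C + p0, ε, by positivity, hε0, ?_⟩
  intro β hβ m hmr hm x n hn hβn hx hinj Q hQ F hF hsp
  have hlog := one_le_div_log hn
  have hlog0 : 0 ≤ (n : ℝ) / Real.log n := by linarith
  rcases lt_or_ge n p0 with hlt | hge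
  · have h3 : (F.card : ℝ) ≤ p0 := by
      have h4 := Finset.card_le_card hF
      rw [Finset.card_range] at h4
      exact_mod_cast (by omega : F.card ≤ p0)
    nlinarith
  · obtain ⟨P, hPc, hB, hsp'⟩ := hP n hn hge Q hQ
    have := hC β hβ m hmr hm P x n hn hβn hPc hB hx hinj F hF
      (fun t ht => hsp' α β m _ (hsp t ht))
    have h6 : 0 ≤ (p0 : ℝ) * (n / Real.log n) := mul_nonneg (Nat.cast_nonneg _) hlog0
    nlinarith

lemma zero_iter (α β : ℤ) (i : ℕ) : (T α β)^[i] 0 = 0 := by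
  apply Function.iterate_fixed
  rfl

/-- odd terms are a positive proportion -/
lemma odd_count {α β : ℤ} (hα : α % 2 = 1) (hβ : β % 2 = 1) {g : ℤ} (hg : |α| = g)
    (hg3 : 3 ≤ g) (x : ℤ) : ∀ i : ℕ, (∀ j ≤ i, (T α β)^[j] x ≠ 0) →
      2 ^ i * |(T α β)^[i] x| ≤ (g + |β|) ^ od α β i x * |x| := by
  intro i
  induction i with
  | zero => intro _; simp [od]
  | succ i ih =>
    intro h0
    have ih' := ih (fun j hj => h0 j (by omega))
    rw [Function.iterate_succ_apply', od]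
    have h := two_T hα hβ ((T α β)^[i] x)
    have hβ0 := abs_nonneg β
    split_ifs at h ⊢ with h1
    · have h2 : 2 * |T α β ((T α β)^[i] x)| = |(T α β)^[i] x| := by
        have h5 : |2 * T α β ((T α β)^[i] x)| = |(T α β)^[i] x| := by rw [h]
        rw [abs_mul] at h5
        simpa using h5
      rw [pow_succ, add_zero, mul_assoc, h2]
      exact ih'
    · have hy : 1 ≤ |(T α β)^[i] x| := Int.one_le_abs (h0 i (by omega))
      have h2 : 2 * |T α β ((T α β)^[i] x)| ≤ (g + |β|) * |(T α β)^[i] x| := by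
        have h5 : 2 * |T α β ((T α β)^[i] x)| = |α * (T α β)^[i] x + β| := by
          rw [← h, abs_mul]; norm_num
        rw [h5]
        refine (abs_add_le _ _).trans ?_
        rw [abs_mul, hg]
        nlinarith
      have h3 : (0 : ℤ) < 2 ^ i := by positivity
      calc (2 : ℤ) ^ (i + 1) * |T α β ((T α β)^[i] x)| =
          2 ^ i * (2 * |T α β ((T α β)^[i] x)|) := by ring
        _ ≤ 2 ^ i * ((g + |β|) * |(T α β)^[i] x|) := mul_le_mul_of_nonneg_left h2 h3.le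
        _ = (g + |β|) * (2 ^ i * |(T α β)^[i] x|) := by ring
        _ ≤ (g + |β|) * ((g + |β|) ^ od α β i x * |x|) :=
            mul_le_mul_of_nonneg_left ih' (by omega)
        _ = (g + |β|) ^ (od α β i x + 1) * |x| := by ring

lemma od_filter (α β x : ℤ) (i : ℕ) :
    od α β i x = ((range i).filter fun t => (T α β)^[t] x % 2 ≠ 0).card := by
  classical
  induction i with
  | zero => simp [od]
  | succ i ih =>
    rw [od, ih, Finset.range_add_one, Finset.filter_insert]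
    by_cases h1 : (T α β)^[i] x % 2 = 0
    · rw [if_pos h1, if_neg (not_not.2 h1), add_zero]
    · rw [if_neg h1, if_pos h1, Finset.card_insert_of_notMem (by simp)]

lemma zero_card {α β : ℤ} (hα : α % 2 = 1) (hβ : β % 2 = 1) {g : ℤ} (hg : |α| = g)
    (hg3 : 3 ≤ g) {Z : Finset ℤ} (hZ : IsCyc α β Z) (h0 : (0 : ℤ) ∈ Z) : Z.card ≤ 1 := by
  obtain ⟨x, hp1, hx, hinj, himg, hxb⟩ := cyc_data hα hβ hg hg3 hZ
  set p := Z.card with hp
  rw [himg] at h0
  obtain ⟨t, ht, ht0⟩ := Finset.mem_image.1 h0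
  rw [Finset.mem_range] at ht
  have h1 : (T α β)^[p] x = 0 := by
    have : p = (p - t) + t := by omega
    rw [this, Function.iterate_add_apply, ht0, zero_iter]
  have hx0 : x = 0 := by rw [← hx, h1]
  by_contra hcon
  have h2 : (0 : ℕ) = 1 := by
    apply hinj
    · exact Finset.mem_coe.2 (Finset.mem_range.2 (by omega))
    · exact Finset.mem_coe.2 (Finset.mem_range.2 (by omega))
    · simp only [hx0, zero_iter]
  omega

/-- the proportion of the odd elements of a cycle -/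
lemma odd_cyc {α β : ℤ} (hα : α % 2 = 1) (hβ : β % 2 = 1) {g : ℤ} (hg : |α| = g)
    (hg3 : 3 ≤ g) {Z : Finset ℤ} (hZ : IsCyc α β Z) (h0 : (0 : ℤ) ∉ Z) :
    Real.log 2 / Real.log ((g : ℝ) + |(β : ℝ)|) * Z.card ≤
      ((Z.filter fun y => y % 2 ≠ 0).card : ℝ) := by
  classical
  obtain ⟨x, hp1, hx, hinj, himg, hxb⟩ := cyc_data hα hβ hg hg3 hZ
  set p := Z.card with hp
  have hmem : ∀ i : ℕ, (T α β)^[i] x ∈ Z := by
    intro i
    rw [himg]
    refine Finset.mem_image.2 ⟨i % p, Finset.mem_range.2 (Nat.mod_lt _ (by omega)), ?_⟩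
    have : Function.IsPeriodicPt (T α β) p x := hx
    exact this.iterate_mod_apply i
  have hne : ∀ i : ℕ, (T α β)^[i] x ≠ 0 := by
    intro i h
    exact h0 (h ▸ hmem i)
  have hxne : x ≠ 0 := hne 0
  have h1 := odd_count hα hβ hg hg3 x p (fun j _ => hne j)
  rw [hx] at h1
  have h2 : (2 : ℤ) ^ p ≤ (g + |β|) ^ od α β p x := le_of_mul_le_mul_right h1 (abs_pos.2 hxne)
  have h3 : (2 : ℝ) ^ p ≤ ((g : ℝ) + |(β : ℝ)|) ^ od α β p x := by exact_mod_cast h2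
  have hgR : (3 : ℝ) ≤ g := by exact_mod_cast hg3
  have hbase : (3 : ℝ) ≤ (g : ℝ) + |(β : ℝ)| := by linarith [abs_nonneg (β : ℝ)]
  have h4 := Real.log_le_log (by positivity) h3
  rw [Real.log_pow, Real.log_pow] at h4
  have hlog : 0 < Real.log ((g : ℝ) + |(β : ℝ)|) := Real.log_pos (by linarith)
  have h5 : Real.log 2 / Real.log ((g : ℝ) + |(β : ℝ)|) * p ≤ od α β p x := by
    rw [div_mul_eq_mul_div, div_le_iff₀ hlog]
    linarith
  refine h5.trans ?_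
  have h6 : od α β p x ≤ (Z.filter fun y => y % 2 ≠ 0).card := by
    rw [od_filter]
    apply Finset.card_le_card_of_injOn (fun t => (T α β)^[t] x)
    · intro t ht
      have ht' := Finset.mem_filter.1 (Finset.mem_coe.1 ht)
      apply Finset.mem_coe.2
      rw [Finset.mem_filter]
      exact ⟨hmem t, ht'.2⟩
    · intro t ht u hu h
      exact hinj (Finset.mem_filter.1 (Finset.mem_coe.1 ht)).1
        (Finset.mem_filter.1 (Finset.mem_coe.1 hu)).1 h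
  exact_mod_cast h6

lemma finite_small {α β : ℤ} (hα : α % 2 = 1) (hβ : β % 2 = 1) {g : ℤ} (hg : |α| = g)
    (hg3 : 3 ≤ g) (N : ℕ) : {Z : Finset ℤ | IsCyc α β Z ∧ Z.card ≤ N}.Finite := by
  classical
  apply Set.Finite.subset
    (Finset.finite_toSet (Finset.Icc (-(|β| * g ^ N)) (|β| * g ^ N)).powerset)
  rintro Z ⟨hZ, hN⟩
  rw [Finset.mem_coe, Finset.mem_powerset]
  intro y hy
  have hper : ∃ q, 1 ≤ q ∧ q ≤ N ∧ (T α β)^[q] y = y := by
    obtain ⟨x, hp1, hx, hinj, himg, hxb⟩ := cyc_data hα hβ hg hg3 hZ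
    rw [himg] at hy
    obtain ⟨t, ht, rfl⟩ := Finset.mem_image.1 hy
    refine ⟨Z.card, hp1, hN, ?_⟩
    rw [← Function.iterate_add_apply, add_comm, Function.iterate_add_apply, hx]
  obtain ⟨q, hq1, hqN, hq⟩ := hper
  have h1 := abs_le_of_period hα hβ hg hg3 hq1 hq
  have h2 : |β| * g ^ q ≤ |β| * g ^ N :=
    mul_le_mul_of_nonneg_left (pow_le_pow_right₀ (by omega) hqN) (abs_nonneg _)
  rw [Finset.mem_Icc]
  exact abs_le.1 (h1.trans h2)

lemma finite_aux {α β : ℤ} (hα : α % 2 = 1) (hβ : β % 2 = 1) {g : ℤ} (hg : |α| = g)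
    (hg3 : 3 ≤ g) {C δ : ℝ} (hC : 0 < C) (hδ : 0 < δ) (B : ℕ) (P : Finset ℤ → Prop)
    (hP : ∀ Z, IsCyc α β Z → 2 ≤ Z.card → B ≤ Z.card → P Z →
      δ * Z.card ≤ C * (Z.card / Real.log Z.card)) :
    {Z : Finset ℤ | IsCyc α β Z ∧ P Z}.Finite := by
  obtain ⟨N, hN⟩ := exists_nat_gt (Real.exp (C / δ))
  apply (finite_small hα hβ hg hg3 (N + B + 1)).subset
  rintro Z ⟨hZ, hPZ⟩
  refine ⟨hZ, ?_⟩
  by_contra hcon
  push Not at hcon
  have h2 : 2 ≤ Z.card := by omega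
  have h := hP Z hZ h2 (by omega) hPZ
  have hpR : Real.exp (C / δ) < (Z.card : ℝ) := by
    have : (N : ℝ) < Z.card := by exact_mod_cast (by omega : N < Z.card)
    linarith
  have hp0 : (0 : ℝ) < Z.card := (Real.exp_pos _).trans hpR
  have hlog : C / δ < Real.log Z.card := by
    rw [← Real.log_exp (C / δ)]
    exact Real.log_lt_log (Real.exp_pos _) hpR
  have hlog0 : 0 < Real.log Z.card := (div_pos hC hδ).trans hlog
  rw [mul_div_assoc', le_div_iff₀ hlog0] at h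
  rw [div_lt_iff₀ hδ] at hlog
  nlinarith

theorem finite_all {α β : ℤ} (hα : α % 2 = 1) (hβ : β % 2 = 1) {g : ℕ} (hg : |α| = g)
    (hg3 : 3 ≤ g) (r : ℕ) (hr : r = 2 ∨ r = 3) {c : ℝ} (hc : r * c < 1) :
    {Z : Finset ℤ | IsCyc α β Z ∧ ∃ m : ℕ, (5 ≤ m + r ∧ 2 ≤ m) ∧ ∃ Q : Finset ℤ,
      (Q.card : ℝ) ≤ (Z.card : ℝ) ^ c ∧
      ∀ y ∈ Z, y % 2 = 1 → ∃ s ∈ Q, ∃ a : ℤ, y = s * a ^ m}.Finite := by
  classical
  have hr0 : (2 : ℝ) ≤ r := by rcases hr with h | h <;> rw [h] <;> norm_num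
  have hc1 : max c 0 < 1 / r := by
    rw [lt_div_iff₀ (by linarith)]
    rcases max_cases c 0 with h | h
    · rw [h.1]; linarith
    · rw [h.1]; linarith
  -- a small positive `d`
  set d : ℝ := (1 / r - max c 0) / 2 with hd
  have hd0 : 0 < d := by rw [hd]; linarith
  have hcd : r * (max c 0 + d) < 1 := by
    have h1 : max c 0 + d < 1 / r := by rw [hd]; linarith
    rw [lt_div_iff₀ (by linarith)] at h1; linarith
  obtain ⟨C, hC0, hC⟩ := near_all hα hg hg3 r hr (c := max c 0) (d := d) (le_max_right _ _)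
    hd0.le hcd
  have ht : Tendsto (fun p : ℕ => ((p : ℝ)) ^ d) atTop atTop :=
    (tendsto_rpow_atTop hd0).comp tendsto_natCast_atTop_atTop
  obtain ⟨B, hB⟩ := eventually_atTop.1 (ht.eventually_ge_atTop |(β : ℝ)|)
  have hg3' : (3 : ℤ) ≤ g := by exact_mod_cast hg3
  have hgR : (3 : ℝ) ≤ g := by exact_mod_cast hg3
  set δ : ℝ := Real.log 2 / Real.log (((g : ℤ) : ℝ) + |(β : ℝ)|) with hδ
  have hδ0 : 0 < δ := by
    rw [hδ]
    apply div_pos (Real.log_pos (by norm_num))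
    apply Real.log_pos
    push_cast
    linarith [abs_nonneg (β : ℝ)]
  apply finite_aux hα hβ hg hg3' hC0 hδ0 B
  rintro Z hZ hZ2 hZB ⟨m, ⟨hmr, hm⟩, Q, hQ, h⟩
  have h0 : (0 : ℤ) ∉ Z := by
    intro h0
    have := zero_card hα hβ hg hg3' hZ h0
    omega
  have h1 := odd_cyc hα hβ hg hg3' hZ h0
  have hZR : (1 : ℝ) ≤ Z.card := by exact_mod_cast (by omega : 1 ≤ Z.card)
  have hQ' : (Q.card : ℝ) ≤ (Z.card : ℝ) ^ (max c 0) :=
    hQ.trans (Real.rpow_le_rpow_of_exponent_le hZR (le_max_left _ _))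
  have h2 : ((Z.filter fun y => y % 2 ≠ 0).card : ℝ) ≤ C * (Z.card / Real.log Z.card) := by
    apply hC β hβ m hmr hm Z hZ hZ2 (hB _ hZB) Q hQ' _ (Finset.filter_subset _ _)
    intro y hy
    have hy' := Finset.mem_filter.1 hy
    have hy1 : y % 2 = 1 := by have := hy'.2; omega
    obtain ⟨s, hs, a, he⟩ := h y hy'.1 hy1
    refine ⟨s, hs, a, by rw [← he]; exact hy1, ?_⟩
    have e : (y : ℝ) - s * a ^ m = 0 := by
      have : (y : ℝ) = s * a ^ m := by exact_mod_cast he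
      rw [this, sub_self]
    rw [e, abs_zero]; positivity
  exact h1.trans h2

end Pool.Agent.V5helper5.AB
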