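import Mathlib
import Pool.Agent.V5helper5.AB.Cyc

set_option autoImplicit false

namespace Pool.Agent.V5helper5.AB

open Finset Filter

/-- infinite orbits -/
theorem orbit_many {α β : ℤ} (hα : α % 2 = 1) (hβ : β % 2 = 1) {g : ℕ} (hg : |α| = g)
    (hg3 : 3 ≤ g) (r : ℕ) (hr : r = 2 ∨ r = 3) {c : ℝ} (hc : r * c < 1) (x : ℤ)
    (hinj : Function.Injective fun i : ℕ => (T α β)^[i] x) :
    ∃ n0 : ℕ, ∀ n : ℕ, n0 ≤ n → ∀ m : ℕ, 5 ≤ m + r → 2 ≤ m → ∀ Q : Finset ℤ,
      (Q.card : ℝ) ≤ (n : ℝ) ^ c → ∃ t : ℕ, t < n ∧ (T α β)^[t] x % 2 = 1 ∧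
        ∀ s ∈ Q, ∀ a : ℤ, (T α β)^[t] x ≠ s * a ^ m := by
  classical
  have hr0 : (2 : ℝ) ≤ r := by rcases hr with h | h <;> rw [h] <;> norm_num
  have hc1 : max c 0 < 1 / r := by
    rw [lt_div_iff₀ (by linarith)]
    rcases max_cases c 0 with h | h
    · rw [h.1]; linarith
    · rw [h.1]; linarith
  set d : ℝ := (1 / r - max c 0) / 2 with hd
  have hd0 : 0 < d := by rw [hd]; linarith
  have hcd : r * (max c 0 + d) < 1 := by
    have h1 : max c 0 + d < 1 / r := by rw [hd]; linarith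
    rw [lt_div_iff₀ (by linarith)] at h1; linarith
  obtain ⟨C, ε, hC0, hε0, hC⟩ := near_traj hα hg hg3 r hr (c := max c 0) (d := d)
    (le_max_right _ _) hd0.le hcd
  have hgR : (3 : ℝ) ≤ g := by exact_mod_cast hg3
  have hg3' : (3 : ℤ) ≤ g := by exact_mod_cast hg3
  set lam : ℝ := Real.log ((g : ℝ) + |(β : ℝ)|) with hlam
  have hlam0 : 0 < lam := Real.log_pos (by linarith [abs_nonneg (β : ℝ)])
  have t1 : Tendsto (fun p : ℕ => ((p : ℝ)) ^ d) atTop atTop :=
    (tendsto_rpow_atTop hd0).comp tendsto_natCast_atTop_atTop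
  have t2 : Tendsto (fun p : ℕ => Real.exp (Real.exp ((p : ℝ) ^ ε))) atTop atTop :=
    Real.tendsto_exp_atTop.comp (Real.tendsto_exp_atTop.comp
      ((tendsto_rpow_atTop hε0).comp tendsto_natCast_atTop_atTop))
  have t3 : Tendsto (fun p : ℕ => Real.log (p : ℝ)) atTop atTop :=
    Real.tendsto_log_atTop.comp tendsto_natCast_atTop_atTop
  obtain ⟨N1, hN1⟩ := eventually_atTop.1 (t1.eventually_ge_atTop |(β : ℝ)|)
  obtain ⟨N2, hN2⟩ := eventually_atTop.1 (t2.eventually_ge_atTop |(x : ℝ)|)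
  obtain ⟨N3, hN3⟩ := eventually_atTop.1 (t3.eventually_ge_atTop (8 * lam * C))
  obtain ⟨N4, hN4⟩ := exists_nat_ge (4 * abs (Real.log (abs (x : ℝ))) + 2)
  refine ⟨N1 + N2 + N3 + N4 + 2, ?_⟩
  intro n hn m hmr hm Q hQ
  by_contra hcon
  push Not at hcon
  have hn2 : 2 ≤ n := by omega
  have hnR : (2 : ℝ) ≤ n := by exact_mod_cast hn2
  have hQ' : (Q.card : ℝ) ≤ (n : ℝ) ^ (max c 0) :=
    hQ.trans (Real.rpow_le_rpow_of_exponent_le (by linarith) (le_max_left _ _))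
  have hne : ∀ j : ℕ, (T α β)^[j] x ≠ 0 := by
    intro j hj
    have h1 : (T α β)^[j + 1] x = 0 := by
      rw [Function.iterate_succ_apply', hj]; rfl
    have : j + 1 = j := hinj (by simp only [h1, hj])
    omega
  have h1 : (((range n).filter fun t => (T α β)^[t] x % 2 ≠ 0).card : ℝ) ≤
      C * (n / Real.log n) := by
    apply hC β hβ m hmr hm x n hn2 (hN1 n (by omega)) (hN2 n (by omega))
      (fun i _ j _ h => hinj h) Q hQ' _ (Finset.filter_subset _ _)
    intro t ht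
    have ht' := Finset.mem_filter.1 ht
    have hy1 : (T α β)^[t] x % 2 = 1 := by have := ht'.2; omega
    obtain ⟨s, hs, a, he⟩ := hcon t (Finset.mem_range.1 ht'.1) hy1
    refine ⟨s, hs, a, by rw [← he]; exact hy1, ?_⟩
    have e : (((T α β)^[t] x : ℤ) : ℝ) - s * a ^ m = 0 := by
      have : (((T α β)^[t] x : ℤ) : ℝ) = s * a ^ m := by exact_mod_cast he
      rw [this, sub_self]
    rw [e, abs_zero]; positivity
  rw [← od_filter] at h1
  have h2 := odd_count hα hβ hg hg3' x n (fun j _ => hne j)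
  have h3 : (2 : ℤ) ^ n ≤ (g + |β|) ^ od α β n x * |x| := by
    have : 1 ≤ |(T α β)^[n] x| := Int.one_le_abs (hne n)
    have h2p : (0 : ℤ) < 2 ^ n := by positivity
    nlinarith
  have h4 : (2 : ℝ) ^ n ≤ ((g : ℝ) + |(β : ℝ)|) ^ od α β n x * |(x : ℝ)| := by exact_mod_cast h3
  have hxpos : 0 < |(x : ℝ)| := by
    rw [abs_pos]; exact_mod_cast hne 0
  have hb0 : 0 < (g : ℝ) + |(β : ℝ)| := by linarith [abs_nonneg (β : ℝ)]
  have h5 := Real.log_le_log (by positivity) h4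
  rw [Real.log_mul (by positivity) hxpos.ne', Real.log_pow, Real.log_pow, ← hlam] at h5
  have h6 : Real.log |(x : ℝ)| ≤ (n : ℝ) / 4 := by
    have e1 := le_abs_self (Real.log |(x : ℝ)|)
    have e2 : (N4 : ℝ) ≤ n := by exact_mod_cast (by omega : N4 ≤ n)
    linarith
  have h7 := hN3 n (by omega)
  have hL0 : 0 < Real.log n := Real.log_pos (by linarith)
  have h8 : (od α β n x : ℝ) * lam ≤ (n : ℝ) / 8 := by
    have e1 : (od α β n x : ℝ) * lam ≤ C * (n / Real.log n) * lam :=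
      mul_le_mul_of_nonneg_right h1 hlam0.le
    have e2 : C * (n / Real.log n) * lam ≤ (n : ℝ) / 8 := by
      rw [show C * ((n : ℝ) / Real.log n) * lam = (lam * C * n) / Real.log n by ring,
        div_le_iff₀ hL0]
      nlinarith
    exact e1.trans e2
  have h9 := Real.log_two_gt_d9
  nlinarith

end Pool.Agent.V5helper5.AB
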