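import Mathlib
import Pool.Agent.V5helper5.AB.Cyc

set_option autoImplicit false

namespace Pool.Agent.V5helper5.AB

open Finset Classical

/-- `D` consists of positive integers, any two of which are comparable under divisibility. -/
def DivChain (D : Set ℤ) : Prop :=
  (∀ d ∈ D, 0 < d) ∧ ∀ d ∈ D, ∀ d' ∈ D, d ∣ d' ∨ d' ∣ d

/-- `y = k + s d` with `d` in `D`, `(k, s)` in `P`. -/
def SpD (α β : ℤ) (P : Finset (ℤ × ℤ)) (D : Set ℤ) (y : ℤ) : Prop :=
  ∃ k s d : ℤ, (k, s) ∈ P ∧ s ≠ 0 ∧ d ∈ D ∧ y = k + s * d ∧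
    ∀ i : ℕ, 1 ≤ i → (∃ s' : ℤ, ((T α β)^[i] k, s') ∈ P) → ¬ (2 : ℤ) ^ i ∣ y - k

lemma chain_card {D : Set ℤ} (hD : DivChain D) (M : ℕ) (F : Finset ℤ) (hF : ∀ d ∈ F, d ∈ D ∧ d ≤ M) :
    F.card ≤ Nat.log 2 M + 1 := by
  have h1 : F.card ≤ (range (Nat.log 2 M + 1)).card := by
    apply Finset.card_le_card_of_injOn (fun d => Nat.log 2 d.toNat)
    · intro d hd
      have h := hF d (Finset.mem_coe.1 hd)
      have hpos := hD.1 d h.1
      apply Finset.mem_coe.2
      rw [Finset.mem_range]
      have : Nat.log 2 d.toNat ≤ Nat.log 2 M := Nat.log_mono_right (by omega)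
      exact Nat.lt_succ_of_le this
    · intro d hd e he hde
      have h := hF d (Finset.mem_coe.1 hd)
      have h' := hF e (Finset.mem_coe.1 he)
      have hd0 := hD.1 d h.1
      have he0 := hD.1 e h'.1
      simp only at hde
      by_contra hne
      have key : ∀ d e : ℤ, 0 < d → 0 < e → d ≠ e → d ∣ e →
          Nat.log 2 d.toNat < Nat.log 2 e.toNat := by
        intro d e hd0 he0 hne hdvd
        obtain ⟨c, rfl⟩ := hdvd
        have hc0 : 0 < c := by
          by_contra hc
          push Not at hc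
          nlinarith
        have hc1 : c ≠ 1 := by
          rintro rfl; rw [mul_one] at hne; exact hne rfl
        have h2 : 2 * d ≤ d * c := by nlinarith [show 2 ≤ c by omega]
        have h3 : 2 * d.toNat ≤ (d * c).toNat := by omega
        have h4 : Nat.log 2 (2 * d.toNat) = Nat.log 2 d.toNat + 1 := by
          rw [mul_comm]
          exact Nat.log_mul_base (by norm_num) (by omega)
        have h5 : Nat.log 2 (2 * d.toNat) ≤ Nat.log 2 (d * c).toNat := Nat.log_mono_right h3
        omega
      rcases hD.2 d h.1 e h'.1 with h2 | h2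
      · have := key d e hd0 he0 hne h2
        omega
      · have := key e d he0 hd0 (Ne.symm hne) h2
        omega
  rwa [Finset.card_range] at h1

theorem chain_count {α β g : ℤ} (hα : α % 2 = 1) (hβ : β % 2 = 1) (hg : |α| = g) (hg3 : 3 ≤ g)
    {x0 B : ℤ} {n w M : ℕ} (P : Finset (ℤ × ℤ)) {D : Set ℤ} (hD : DivChain D) (hw : 1 ≤ w)
    (hB : ∀ q ∈ P, |q.1| ≤ B) (hM : g ^ w * (|β| + 2 * B) ≤ M)
    (hinj : Set.InjOn (fun i => (T α β)^[i] x0) (range n : Finset ℕ))
    (S : Finset ℕ) (hS : S ⊆ range n) (hsp : ∀ t ∈ S, SpD α β P D ((T α β)^[t] x0)) :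
    S.card ≤ n / w + 1 + P.card * (Nat.log 2 M + 1) := by
  have hch : ∀ y : ℤ, ∃ (q : ℤ × ℤ) (d : ℤ), SpD α β P D y → q ∈ P ∧ q.2 ≠ 0 ∧ d ∈ D ∧
      y = q.1 + q.2 * d ∧
      ∀ i : ℕ, 1 ≤ i → (∃ s' : ℤ, ((T α β)^[i] q.1, s') ∈ P) → ¬ (2 : ℤ) ^ i ∣ y - q.1 := by
    intro y
    by_cases h : SpD α β P D y
    · obtain ⟨k, s, d, h1⟩ := h
      exact ⟨(k, s), d, fun _ => h1⟩
    · exact ⟨0, 0, fun h' => absurd h' h⟩
  choose qf df hqd using hch
  set S1 := S.filter fun t => df ((T α β)^[t] x0) ≤ M with hS1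
  set S2 := S.filter fun t => ¬ df ((T α β)^[t] x0) ≤ M with hS2
  have hcard : S.card = S1.card + S2.card := (Finset.card_filter_add_card_filter_not _).symm
  -- large ones are `w`-separated
  have hsep : ∀ t ∈ S2, ∀ u ∈ S2, t < u → w < u - t := by
    intro t ht u hu htu
    by_contra hcon
    push Not at hcon
    have ht' := Finset.mem_filter.1 ht
    have hu' := Finset.mem_filter.1 hu
    obtain ⟨a1, a2, a3, a4, a5⟩ := hqd _ (hsp t ht'.1)
    obtain ⟨b1, b2, b3, b4, b5⟩ := hqd _ (hsp u hu'.1)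
    set i := u - t with hi
    have hui : (T α β)^[u] x0 = (T α β)^[i] ((T α β)^[t] x0) := by
      rw [← Function.iterate_add_apply]; congr 2; omega
    set x := (T α β)^[t] x0 with hx
    set y := (T α β)^[u] x0 with hy
    have hbr := branch_kk hα hβ i x (qf x).1 (qf y).1
    rw [← hui] at hbr
    have hxk : x - (qf x).1 = (qf x).2 * df x := by linarith
    have hyk : y - (qf y).1 = (qf y).2 * df y := by linarith
    rw [hxk, hyk] at hbr
    have hne : ec α β i x (qf x).1 (qf y).1 ≠ 0 := by
      intro h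
      obtain ⟨h1, h2⟩ := ec_zero hα hβ h
      refine a5 i (by omega) ⟨(qf y).2, ?_⟩ h2
      rw [h1]; exact b1
    have hE := (ec_bound hg hg3 (β := β) (w := w) (i := i) hcon x (hB _ a1) (hB _ b1)).trans hM
    have hdx := hD.1 _ a3
    have hdy := hD.1 _ b3
    rcases hD.2 _ a3 _ b3 with hdv | hdv
    · have h1 : df x ∣ ec α β i x (qf x).1 (qf y).1 := by
        rw [← hbr]
        apply dvd_sub
        · exact Dvd.dvd.mul_left (Dvd.dvd.mul_left hdv _) _
        · exact Dvd.dvd.mul_left (Dvd.intro_left _ rfl) _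
      have h2 := Int.le_of_dvd (abs_pos.2 hne) ((dvd_abs _ _).2 h1)
      exact ht'.2 (h2.trans hE)
    · have h1 : df y ∣ ec α β i x (qf x).1 (qf y).1 := by
        rw [← hbr]
        apply dvd_sub
        · exact Dvd.dvd.mul_left (Dvd.intro_left _ rfl) _
        · exact Dvd.dvd.mul_left (Dvd.dvd.mul_left hdv _) _
      have h2 := Int.le_of_dvd (abs_pos.2 hne) ((dvd_abs _ _).2 h1)
      exact hu'.2 (h2.trans hE)
  have hc2 : S2.card ≤ n / w + 1 := by
    have h1 : S2.card ≤ (range (n / w + 1)).card := by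
      apply Finset.card_le_card_of_injOn (fun t => t / w)
      · intro t ht
        have ht' := Finset.mem_filter.1 (Finset.mem_coe.1 ht)
        have h2 := Finset.mem_range.1 (hS ht'.1)
        apply Finset.mem_coe.2
        rw [Finset.mem_range]
        have : t / w ≤ n / w := Nat.div_le_div_right h2.le
        exact Nat.lt_succ_of_le this
      · intro t ht u hu htu
        simp only at htu
        have key : ∀ t u : ℕ, t ∈ S2 → u ∈ S2 → t / w = u / w → ¬ t < u := by
          intro t u ht hu htu hlt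
          have h3 := hsep t ht u hu hlt
          have h4 : (t / w) * w ≤ t := Nat.div_mul_le_self t w
          have h5 := Nat.lt_div_mul_add (a := u) (b := w) (by omega)
          rw [← htu] at h5
          omega
        rcases lt_trichotomy t u with h | h | h
        · exact absurd h (key t u (Finset.mem_coe.1 ht) (Finset.mem_coe.1 hu) htu)
        · exact h
        · exact absurd h (key u t (Finset.mem_coe.1 hu) (Finset.mem_coe.1 ht) htu.symm)
    rwa [Finset.card_range] at h1
  have hc1 : S1.card ≤ P.card * (Nat.log 2 M + 1) := by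
    set E := S1.image (fun t => df ((T α β)^[t] x0)) with hE
    have hEc : E.card ≤ Nat.log 2 M + 1 := by
      apply chain_card hD M
      intro d hd
      obtain ⟨t, ht, rfl⟩ := Finset.mem_image.1 hd
      have ht' := Finset.mem_filter.1 ht
      exact ⟨(hqd _ (hsp t ht'.1)).2.2.1, ht'.2⟩
    have h1 : S1.card ≤ (P ×ˢ E).card := by
      apply Finset.card_le_card_of_injOn
        (fun t => (qf ((T α β)^[t] x0), df ((T α β)^[t] x0)))
      · intro t ht
        have ht1 := Finset.mem_coe.1 ht
        have ht' := Finset.mem_filter.1 ht1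
        rw [Finset.mem_coe, Finset.mem_product]
        exact ⟨(hqd _ (hsp t ht'.1)).1, Finset.mem_image_of_mem _ ht1⟩
      · intro t ht u hu htu
        have ht' := (Finset.mem_filter.1 (Finset.mem_coe.1 ht)).1
        have hu' := (Finset.mem_filter.1 (Finset.mem_coe.1 hu)).1
        simp only [Prod.mk.injEq] at htu
        have e1 := (hqd _ (hsp t ht')).2.2.2.1
        have e2 := (hqd _ (hsp u hu')).2.2.2.1
        rw [htu.1, htu.2, ← e2] at e1
        exact hinj (hS ht') (hS hu') e1
    rw [Finset.card_product] at h1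
    exact h1.trans (Nat.mul_le_mul_left _ hEc)
  omega

end Pool.Agent.V5helper5.AB
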