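import Mathlib
import Pool.Agent.V5helper5.AB.Chain

set_option autoImplicit false

namespace Pool.Agent.V5helper5.AB

open Finset Classical

/-- the optimised bound -/
theorem chain_opt {α β : ℤ} {g : ℕ} (hα : α % 2 = 1) (hβ : β % 2 = 1) (hg : |α| = g) (hg3 : 3 ≤ g)
    {x0 : ℤ} {B n : ℕ} (P : Finset (ℤ × ℤ)) {D : Set ℤ} (hD : DivChain D)
    (hB : ∀ q ∈ P, |q.1| ≤ B)
    (hinj : Set.InjOn (fun i => (T α β)^[i] x0) (range n : Finset ℕ))
    (S : Finset ℕ) (hS : S ⊆ range n) (hsp : ∀ t ∈ S, SpD α β P D ((T α β)^[t] x0)) :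
    (S.card : ℝ) ≤ (1 + Real.logb 2 g) * √((n : ℝ) * P.card) +
      P.card * (2 + Real.logb 2 g + Real.logb 2 (|(β : ℝ)| + 2 * B)) := by
  rcases S.eq_empty_or_nonempty with he | ⟨t0, ht0⟩
  · have hgR : (3 : ℝ) ≤ g := by exact_mod_cast hg3
    have h1 : 0 ≤ Real.logb 2 g := Real.logb_nonneg (by norm_num) (by linarith)
    have hb : (1 : ℝ) ≤ |(β : ℝ)| := by
      have : 1 ≤ |β| := Int.one_le_abs (by omega)
      exact_mod_cast this
    have h2 : 0 ≤ Real.logb 2 (|(β : ℝ)| + 2 * B) := by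
      apply Real.logb_nonneg (by norm_num)
      have : (0 : ℝ) ≤ B := Nat.cast_nonneg _
      linarith
    rw [he, Finset.card_empty, Nat.cast_zero]
    positivity
  · have hn0 : 0 < n := by
      have := Finset.mem_range.1 (hS ht0)
      omega
    have hP0 : 0 < P.card := by
      obtain ⟨k, s, d, h1, _⟩ := hsp t0 ht0
      exact Finset.card_pos.2 ⟨_, h1⟩
    set N := P.card with hN
    have hnR : (0 : ℝ) < n := by exact_mod_cast hn0
    have hNR : (1 : ℝ) ≤ N := by exact_mod_cast hP0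
    have hgR : (3 : ℝ) ≤ g := by exact_mod_cast hg3
    set w : ℕ := ⌈√((n : ℝ) / N)⌉₊ with hw
    have hq0 : 0 < √((n : ℝ) / N) := Real.sqrt_pos.2 (by positivity)
    have hw1 : 1 ≤ w := Nat.one_le_ceil_iff.2 hq0
    have hwle : √((n : ℝ) / N) ≤ w := Nat.le_ceil _
    have hwlt : (w : ℝ) ≤ √((n : ℝ) / N) + 1 := (Nat.ceil_lt_add_one hq0.le).le
    have hb1 : 1 ≤ |β| := Int.one_le_abs (by omega)
    set M : ℕ := g ^ w * (β.natAbs + 2 * B) with hM
    have hMM : (g : ℤ) ^ w * (|β| + 2 * (B : ℤ)) ≤ (M : ℤ) := by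
      rw [hM]; push_cast
      apply le_of_eq
      rfl
    have hcount := chain_count hα hβ hg (by exact_mod_cast hg3 : (3 : ℤ) ≤ (g : ℤ)) P hD hw1 hB hMM
      hinj S hS hsp
    have hcR : (S.card : ℝ) ≤ ((n / w : ℕ) : ℝ) + 1 + N * ((Nat.log 2 M : ℕ) + 1) := by
      exact_mod_cast hcount
    -- `n / w ≤ √(n N)`
    have hsq : √((n : ℝ) * N) = √((n : ℝ) / N) * N := by
      rw [Real.sqrt_div' _ (by linarith), Real.sqrt_mul hnR.le]
      have h3 : √(N : ℝ) * √(N : ℝ) = N := Real.mul_self_sqrt (by linarith)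
      have h4 : 0 < √(N : ℝ) := Real.sqrt_pos.2 (by linarith)
      field_simp
      nlinarith
    have hq2 : √((n : ℝ) / N) * √((n : ℝ) / N) = n / N := Real.mul_self_sqrt (by positivity)
    have b1 : ((n / w : ℕ) : ℝ) ≤ √((n : ℝ) * N) := by
      calc ((n / w : ℕ) : ℝ) ≤ (n : ℝ) / w := Nat.cast_div_le
        _ ≤ n / √((n : ℝ) / N) := div_le_div_of_nonneg_left hnR.le hq0 hwle
        _ = √((n : ℝ) * N) := by
            rw [hsq, div_eq_iff hq0.ne']
            have : √((n : ℝ) / N) * N * √((n : ℝ) / N) =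
                N * (√((n : ℝ) / N) * √((n : ℝ) / N)) := by ring
            rw [this, hq2]; field_simp
    have hMpos : 0 < M := by
      rw [hM]
      have h5 : 0 < β.natAbs := by omega
      have h6 : 0 < g ^ w := Nat.pow_pos (by omega)
      positivity
    have b2 : ((Nat.log 2 M : ℕ) : ℝ) ≤ w * Real.logb 2 g + Real.logb 2 (|(β : ℝ)| + 2 * B) := by
      have h5 : ((Nat.log 2 M : ℕ) : ℝ) ≤ Real.logb 2 M := Real.natLog_le_logb M 2
      refine h5.trans (le_of_eq ?_)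
      have hbR : (1 : ℝ) ≤ |(β : ℝ)| := by exact_mod_cast hb1
      have hBR : (0 : ℝ) ≤ B := Nat.cast_nonneg _
      have h6 : (M : ℝ) = (g : ℝ) ^ w * (|(β : ℝ)| + 2 * B) := by
        rw [hM]; push_cast
        rw [Nat.cast_natAbs, Int.cast_abs]
      rw [h6, Real.logb_mul (by positivity) (by linarith), Real.logb_pow]
    have hlg : 0 ≤ Real.logb 2 g := Real.logb_nonneg (by norm_num) (by linarith)
    have b3 : (N : ℝ) * (w * Real.logb 2 g) ≤
        Real.logb 2 g * √((n : ℝ) * N) + N * Real.logb 2 g := by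
      have h7 : (N : ℝ) * w ≤ √((n : ℝ) * N) + N := by
        rw [hsq]; nlinarith
      nlinarith
    have b4 : (N : ℝ) * ((Nat.log 2 M : ℕ) : ℝ) ≤
        N * (w * Real.logb 2 g + Real.logb 2 (|(β : ℝ)| + 2 * B)) :=
      mul_le_mul_of_nonneg_left b2 (by linarith)
    nlinarith

/-- cycles -/
theorem chain_cyc {α β : ℤ} {g : ℕ} (hα : α % 2 = 1) (hβ : β % 2 = 1) (hg : |α| = g) (hg3 : 3 ≤ g)
    {B : ℕ} (P : Finset (ℤ × ℤ)) {D : Set ℤ} (hD : DivChain D) (hB : ∀ q ∈ P, |q.1| ≤ B)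
    {Z : Finset ℤ} (hZ : IsCyc α β Z) (F : Finset ℤ) (hF : F ⊆ Z)
    (hsp : ∀ y ∈ F, SpD α β P D y) :
    (F.card : ℝ) ≤ (1 + Real.logb 2 g) * √((Z.card : ℝ) * P.card) +
      P.card * (2 + Real.logb 2 g + Real.logb 2 (|(β : ℝ)| + 2 * B)) := by
  obtain ⟨x, hp1, hx, hinj, himg, hxb⟩ :=
    cyc_data hα hβ hg (by exact_mod_cast hg3 : (3 : ℤ) ≤ (g : ℤ)) hZ
  set p := Z.card with hp
  set S := (range p).filter (fun t => (T α β)^[t] x ∈ F) with hS
  have hFS : F = S.image (fun t => (T α β)^[t] x) := by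
    ext y
    simp only [hS, Finset.mem_image, Finset.mem_filter, Finset.mem_range]
    constructor
    · intro hy
      have h1 : y ∈ (Finset.range p).image (fun i => (T α β)^[i] x) := himg ▸ hF hy
      obtain ⟨t, ht, rfl⟩ := Finset.mem_image.1 h1
      exact ⟨t, ⟨Finset.mem_range.1 ht, hy⟩, rfl⟩
    · rintro ⟨t, ⟨_, h⟩, rfl⟩
      exact h
  have hle : F.card ≤ S.card := by
    rw [hFS]; exact Finset.card_image_le
  have h := chain_opt hα hβ hg hg3 P hD hB hinj S (Finset.filter_subset _ _)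
    (fun t ht => hsp _ (Finset.mem_filter.1 ht).2)
  have h5 : (F.card : ℝ) ≤ S.card := by exact_mod_cast hle
  linarith

lemma logb_three : Real.logb 2 ((3 : ℕ) : ℝ) ≤ 1.6 := by
  rw [Real.logb_le_iff_le_rpow (by norm_num) (by norm_num)]
  have h1 : ((3 : ℝ)) ^ 5 ≤ ((2 : ℝ) ^ (1.6 : ℝ)) ^ 5 := by
    rw [← Real.rpow_natCast ((2 : ℝ) ^ (1.6 : ℝ)) 5, ← Real.rpow_mul (by norm_num)]
    have : (1.6 : ℝ) * ((5 : ℕ) : ℝ) = ((8 : ℕ) : ℝ) := by norm_num
    rw [this, Real.rpow_natCast]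
    norm_num
  have h2 := (pow_le_pow_iff_left₀ (by norm_num) (by positivity) (by norm_num : (5 : ℕ) ≠ 0)).1 h1
  push_cast
  exact h2

end Pool.Agent.V5helper5.AB
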