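import Mathlib
import Pool.Agent.V5helper5.AB.Chain2

set_option autoImplicit false

namespace Pool.Agent.V5helper5.AB

open Finset Classical

/-- Mirsky's theorem for divisibility -/
lemma mirsky (F : Finset ℤ) (L : ℕ) (hanti : ∀ y ∈ F, ∀ z ∈ F, y ∣ z → z ∣ y → y = z)
    (hL : ∀ C : Finset ℤ, C ⊆ F → (∀ a ∈ C, ∀ b ∈ C, a ∣ b ∨ b ∣ a) → C.card ≤ L) :
    ∃ A : Finset ℤ, A ⊆ F ∧ (∀ y ∈ A, ∀ z ∈ A, y ∣ z → y = z) ∧ F.card ≤ L * A.card := by
  rcases F.eq_empty_or_nonempty with he | hne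
  · exact ⟨∅, Finset.empty_subset _, by simp, by rw [he]; simp⟩
  set fam : ℤ → Finset (Finset ℤ) := fun y =>
    ((F.filter fun z => z ∣ y).powerset).filter fun C => ∀ a ∈ C, ∀ b ∈ C, a ∣ b ∨ b ∣ a with hfam
  set h : ℤ → ℕ := fun y => (fam y).sup Finset.card with hh
  have hmem0 : ∀ y, ∅ ∈ fam y := by
    intro y
    rw [hfam, Finset.mem_filter, Finset.mem_powerset]
    exact ⟨Finset.empty_subset _, by simp⟩
  have hstrict : ∀ y ∈ F, ∀ z ∈ F, y ∣ z → y ≠ z → h y < h z := by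
    intro y hy z hz hyz hne
    obtain ⟨C, hC, hCc⟩ := Finset.exists_mem_eq_sup (fam y) ⟨∅, hmem0 y⟩ Finset.card
    rw [hfam, Finset.mem_filter, Finset.mem_powerset] at hC
    have hzC : z ∉ C := by
      intro hzC
      have h1 := (Finset.mem_filter.1 (hC.1 hzC)).2
      exact hne (hanti y hy z hz hyz h1)
    have hins : insert z C ∈ fam z := by
      rw [hfam, Finset.mem_filter, Finset.mem_powerset]
      have hdiv : ∀ a ∈ C, a ∣ z := fun a ha => ((Finset.mem_filter.1 (hC.1 ha)).2).trans hyz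
      constructor
      · intro a ha
        rcases Finset.mem_insert.1 ha with h1 | h1
        · rw [h1, Finset.mem_filter]; exact ⟨hz, dvd_rfl⟩
        · rw [Finset.mem_filter]; exact ⟨(Finset.mem_filter.1 (hC.1 h1)).1, hdiv a h1⟩
      · intro a ha b hb
        rcases Finset.mem_insert.1 ha with h1 | h1 <;> rcases Finset.mem_insert.1 hb with h2 | h2
        · left; rw [h1, h2]
        · right; rw [h1]; exact hdiv b h2
        · left; rw [h2]; exact hdiv a h1
        · exact hC.2 a h1 b h2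
    have h3 : (insert z C).card ≤ h z := Finset.le_sup (f := Finset.card) hins
    rw [Finset.card_insert_of_notMem hzC] at h3
    have h4 : h y = C.card := hCc
    omega
  have hub : ∀ y ∈ F, h y ≤ L := by
    intro y hy
    apply Finset.sup_le
    intro C hC
    rw [hfam, Finset.mem_filter, Finset.mem_powerset] at hC
    exact hL C (fun a ha => (Finset.mem_filter.1 (hC.1 ha)).1) hC.2
  have hlb : ∀ y ∈ F, 1 ≤ h y := by
    intro y hy
    have : ({y} : Finset ℤ) ∈ fam y := by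
      rw [hfam, Finset.mem_filter, Finset.mem_powerset]
      constructor
      · intro a ha
        rw [Finset.mem_singleton] at ha
        rw [ha, Finset.mem_filter]; exact ⟨hy, dvd_rfl⟩
      · intro a ha b hb
        rw [Finset.mem_singleton] at ha hb
        left; rw [ha, hb]
    have h3 : ({y} : Finset ℤ).card ≤ h y := Finset.le_sup (f := Finset.card) this
    simpa using h3
  obtain ⟨y0, hy0, hmax⟩ := Finset.exists_max_image F
    (fun y => (F.filter fun z => h z = h y).card) hne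
  refine ⟨F.filter fun z => h z = h y0, Finset.filter_subset _ _, ?_, ?_⟩
  · intro y hy z hz hyz
    by_contra hne'
    have hy' := Finset.mem_filter.1 hy
    have hz' := Finset.mem_filter.1 hz
    have := hstrict y hy'.1 z hz'.1 hyz hne'
    omega
  · have h1 : F.card ≤ (F.filter fun z => h z = h y0).card * (F.image h).card := by
      apply Finset.card_le_mul_card_image
      intro j hj
      obtain ⟨y, hy, rfl⟩ := Finset.mem_image.1 hj
      exact hmax y hy
    have h2 : (F.image h).card ≤ L := by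
      have h3 : F.image h ⊆ Finset.Icc 1 L := by
        intro j hj
        obtain ⟨y, hy, rfl⟩ := Finset.mem_image.1 hj
        exact Finset.mem_Icc.2 ⟨hlb y hy, hub y hy⟩
      have := Finset.card_le_card h3
      rwa [Nat.card_Icc, Nat.add_sub_cancel] at this
    calc F.card ≤ (F.filter fun z => h z = h y0).card * (F.image h).card := h1
      _ ≤ (F.filter fun z => h z = h y0).card * L := Nat.mul_le_mul_left _ h2
      _ = _ := Nat.mul_comm _ _

lemma T_pos {y : ℤ} (hy : 0 < y) : 0 < T 3 1 y := by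
  unfold T
  split_ifs <;> omega

lemma T_neg {y : ℤ} (hy : y < 0) : T 3 1 y < 0 := by
  unfold T
  split_ifs <;> omega

lemma pos_iter (x : ℤ) (hx : 0 < x) (i : ℕ) : 0 < (T 3 1)^[i] x := by
  induction i with
  | zero => exact hx
  | succ i ih =>
    rw [Function.iterate_succ_apply']
    exact T_pos ih

lemma neg_iter (x : ℤ) (hx : x < 0) (i : ℕ) : (T 3 1)^[i] x < 0 := by
  induction i with
  | zero => exact hx
  | succ i ih =>
    rw [Function.iterate_succ_apply']
    exact T_neg ih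

/-- longest chains of odd elements -/
theorem chain_odd {Z : Finset ℤ} (hZ : IsCyc 3 1 Z) (C : Finset ℤ) (hC : C ⊆ Z)
    (hodd : ∀ y ∈ C, y % 2 = 1) (hch : ∀ a ∈ C, ∀ b ∈ C, a ∣ b ∨ b ∣ a) :
    (C.card : ℝ) ≤ 4 * √(Z.card : ℝ) + 8 := by
  set D : Set ℤ := {d | ∃ y ∈ C, d = |y|} with hD
  have hDC : DivChain D := by
    constructor
    · rintro d ⟨y, hy, rfl⟩
      have := hodd y hy
      exact abs_pos.2 (by omega)
    · rintro d ⟨y, hy, rfl⟩ d' ⟨z, hz, rfl⟩
      rcases hch y hy z hz with h | h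
      · left; exact (abs_dvd_abs _ _).2 h
      · right; exact (abs_dvd_abs _ _).2 h
  set P : Finset (ℤ × ℤ) := {((0 : ℤ), (1 : ℤ)), ((0 : ℤ), (-1 : ℤ))} with hP
  have hPc : P.card = 2 := by rw [hP]; decide
  have h := chain_cyc (α := 3) (β := 1) (g := 3) (B := 0) (by norm_num) (by norm_num)
    (by norm_num) le_rfl P hDC (by
      intro q hq
      rw [hP, Finset.mem_insert, Finset.mem_singleton] at hq
      rcases hq with rfl | rfl <;> simp) hZ C hC (by
      intro y hy
      have hy1 := hodd y hy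
      have hreg : ∀ i : ℕ, 1 ≤ i → (∃ s' : ℤ, ((T 3 1)^[i] 0, s') ∈ P) → ¬ (2 : ℤ) ^ i ∣ y - 0 := by
        intro i hi _ hd
        have h2 : (2 : ℤ) ∣ y - 0 := (dvd_pow_self 2 (by omega)).trans hd
        omega
      rcases le_or_gt 0 y with h0 | h0
      · refine ⟨0, 1, |y|, ?_, by norm_num, ⟨y, hy, rfl⟩, ?_, hreg⟩
        · rw [hP]; simp
        · rw [abs_of_nonneg h0]; ring
      · refine ⟨0, -1, |y|, ?_, by norm_num, ⟨y, hy, rfl⟩, ?_, hreg⟩
        · rw [hP]; simp
        · rw [abs_of_neg h0]; ring)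
  rw [hPc] at h
  have e1 : Real.logb 2 (|((1 : ℤ) : ℝ)| + 2 * ((0 : ℕ) : ℝ)) = 0 := by norm_num
  rw [e1] at h
  have hl := logb_three
  have hl0 : 0 ≤ Real.logb 2 ((3 : ℕ) : ℝ) := Real.logb_nonneg (by norm_num) (by norm_num)
  have hs : √((Z.card : ℝ) * ((2 : ℕ) : ℝ)) ≤ 1.42 * √(Z.card : ℝ) := by
    rw [Real.sqrt_mul (Nat.cast_nonneg _), mul_comm]
    apply mul_le_mul_of_nonneg_right _ (Real.sqrt_nonneg _)
    rw [Real.sqrt_le_left (by norm_num)]
    norm_num
  have hs0 : 0 ≤ √(Z.card : ℝ) := Real.sqrt_nonneg _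
  have h6 : (1 + Real.logb 2 ((3 : ℕ) : ℝ)) * √((Z.card : ℝ) * ((2 : ℕ) : ℝ)) ≤
      2.6 * (1.42 * √(Z.card : ℝ)) := by
    apply mul_le_mul _ hs (Real.sqrt_nonneg _) (by norm_num)
    linarith
  push_cast at h h6 hl
  nlinarith

lemma odd_half {Z : Finset ℤ} (hZ : IsCyc 3 1 Z) (h0 : (0 : ℤ) ∉ Z) :
    (Z.card : ℝ) ≤ 2 * ((Z.filter fun y => y % 2 ≠ 0).card : ℝ) := by
  have h := odd_cyc (α := 3) (β := 1) (g := 3) (by norm_num) (by norm_num) (by norm_num) le_rfl hZ h0
  have e : Real.log 2 / Real.log (((3 : ℤ) : ℝ) + |((1 : ℤ) : ℝ)|) = 1 / 2 := by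
    have h4 : (((3 : ℤ) : ℝ) + |((1 : ℤ) : ℝ)|) = 2 ^ 2 := by norm_num
    rw [h4, Real.log_pow]
    have : Real.log 2 ≠ 0 := (Real.log_pos (by norm_num)).ne'
    push_cast
    field_simp
  rw [e] at h
  linarith

theorem antichain {Z : Finset ℤ} (hZ : IsCyc 3 1 Z) (h0 : (0 : ℤ) ∉ Z) :
    ∃ A : Finset ℤ, A ⊆ Z ∧ (∀ y ∈ A, y % 2 = 1) ∧ (∀ y ∈ A, ∀ z ∈ A, y ∣ z → y = z) ∧
      √(Z.card : ℝ) ≤ 16 * A.card := by
  have hanti : ∀ y ∈ (Z.filter fun y => y % 2 ≠ 0), ∀ z ∈ (Z.filter fun y => y % 2 ≠ 0),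
      y ∣ z → z ∣ y → y = z := by
    intro y hy z hz h1 h2
    have hy' := (Finset.mem_filter.1 hy).1
    have hz' := (Finset.mem_filter.1 hz).1
    obtain ⟨x, p, hp, hx, rfl⟩ := hZ
    obtain ⟨i, _, rfl⟩ := Finset.mem_image.1 hy'
    obtain ⟨j, _, rfl⟩ := Finset.mem_image.1 hz'
    rcases Int.natAbs_eq_iff.1 (Nat.dvd_antisymm (Int.natAbs_dvd_natAbs.2 h1)
      (Int.natAbs_dvd_natAbs.2 h2)) with h3 | h3
    · rw [h3]
      rcases lt_trichotomy x 0 with hx0 | hx0 | hx0
      · have a1 := neg_iter x hx0 i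
        have a2 := neg_iter x hx0 j
        omega
      · exfalso
        apply h0
        rw [Finset.mem_image]
        exact ⟨0, Finset.mem_range.2 (by omega), by simpa using hx0⟩
      · have a1 := pos_iter x hx0 i
        have a2 := pos_iter x hx0 j
        omega
    · rcases lt_trichotomy x 0 with hx0 | hx0 | hx0
      · have a1 := neg_iter x hx0 i
        have a2 := neg_iter x hx0 j
        omega
      · exfalso
        apply h0
        rw [Finset.mem_image]
        exact ⟨0, Finset.mem_range.2 (by omega), by simpa using hx0⟩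
      · have a1 := pos_iter x hx0 i
        have a2 := pos_iter x hx0 j
        omega
  set F := Z.filter fun y => y % 2 ≠ 0 with hF
  obtain ⟨A, hA, hA1, hA2⟩ := mirsky F ⌊4 * √(Z.card : ℝ) + 8⌋₊ hanti (by
    intro C hC hch
    apply Nat.le_floor
    apply chain_odd hZ C (fun a ha => (Finset.mem_filter.1 (hC ha)).1) _ hch
    intro y hy
    have := (Finset.mem_filter.1 (hC hy)).2
    omega)
  refine ⟨A, fun a ha => (Finset.mem_filter.1 (hA ha)).1, ?_, hA1, ?_⟩
  · intro y hy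
    have := (Finset.mem_filter.1 (hA hy)).2
    omega
  · have h1 := odd_half hZ h0
    rw [← hF] at h1
    have h2 : (F.card : ℝ) ≤ (⌊4 * √(Z.card : ℝ) + 8⌋₊ : ℝ) * A.card := by exact_mod_cast hA2
    have hs0 : 0 ≤ √(Z.card : ℝ) := Real.sqrt_nonneg _
    have h3 : (⌊4 * √(Z.card : ℝ) + 8⌋₊ : ℝ) ≤ 4 * √(Z.card : ℝ) + 8 := Nat.floor_le (by positivity)
    have hA0 : (0 : ℝ) ≤ A.card := Nat.cast_nonneg _
    have h4 : (Z.card : ℝ) ≤ 2 * ((4 * √(Z.card : ℝ) + 8) * A.card) := by nlinarith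
    have hsq : √(Z.card : ℝ) * √(Z.card : ℝ) = Z.card := Real.mul_self_sqrt (Nat.cast_nonneg _)
    set s := √(Z.card : ℝ) with hs
    set a : ℝ := (A.card : ℝ) with ha
    -- `s ^ 2 ≤ (8 s + 16) a`
    rcases lt_or_ge s 2 with hs2 | hs2
    · -- `A` is nonempty
      have hZ0 : (1 : ℝ) ≤ Z.card := by
        have : 1 ≤ Z.card := by
          obtain ⟨x, hp1, _⟩ := cyc_data (α := 3) (β := 1) (g := 3) (by norm_num) (by norm_num)
            (by norm_num) le_rfl hZ
          exact hp1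
        exact_mod_cast this
      have hapos : 1 ≤ a := by
        have h5 : A.card ≠ 0 := by
          intro h5
          have : a = 0 := by rw [ha, h5]; norm_num
          rw [this] at h4; linarith
        have h6 : 1 ≤ A.card := by omega
        rw [ha]; exact_mod_cast h6
      linarith
    · have h5 : s * s ≤ (16 * a) * s := by nlinarith
      exact le_of_mul_le_mul_right h5 (by linarith)

theorem multipliers {Z : Finset ℤ} (hZ : IsCyc 3 1 Z) (h0 : (0 : ℤ) ∉ Z) {D : Set ℤ}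
    (hD : DivChain D) (Q : Finset ℤ)
    (h : ∀ y ∈ Z, y % 2 = 1 → ∃ s ∈ Q, ∃ d ∈ D, y = s * d) : Z.card < 50 * Q.card := by
  by_contra hcon
  push Not at hcon
  have h1 := odd_half hZ h0
  set F := Z.filter fun y => y % 2 ≠ 0 with hF
  set P : Finset (ℤ × ℤ) := ({0} : Finset ℤ) ×ˢ Q with hP
  have hPc : P.card = Q.card := by rw [hP, Finset.card_product]; simp
  have hb := chain_cyc (α := 3) (β := 1) (g := 3) (B := 0) (by norm_num) (by norm_num)
    (by norm_num) le_rfl P hD (by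
      intro q hq
      rw [hP, Finset.mem_product, Finset.mem_singleton] at hq
      rw [hq.1]; simp) hZ F (Finset.filter_subset _ _) (by
      intro y hy
      have hy' := Finset.mem_filter.1 hy
      have hy1 : y % 2 = 1 := by have := hy'.2; omega
      obtain ⟨s, hs, d, hd, he⟩ := h y hy'.1 hy1
      refine ⟨0, s, d, ?_, ?_, hd, by rw [zero_add]; exact he, ?_⟩
      · rw [hP, Finset.mem_product]; exact ⟨Finset.mem_singleton_self _, hs⟩
      · rintro rfl; rw [zero_mul] at he; omega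
      · intro i hi _ hd2
        have h2 : (2 : ℤ) ∣ y - 0 := (dvd_pow_self 2 (by omega)).trans hd2
        omega)
  rw [hPc] at hb
  have e1 : Real.logb 2 (|((1 : ℤ) : ℝ)| + 2 * ((0 : ℕ) : ℝ)) = 0 := by norm_num
  rw [e1] at hb
  have hl := logb_three
  have hl0 : 0 ≤ Real.logb 2 ((3 : ℕ) : ℝ) := Real.logb_nonneg (by norm_num) (by norm_num)
  have hcR : (50 : ℝ) * Q.card ≤ Z.card := by exact_mod_cast hcon
  have hQ0 : (0 : ℝ) ≤ Q.card := Nat.cast_nonneg _
  have hZ0 : (1 : ℝ) ≤ Z.card := by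
    have : 1 ≤ Z.card := by
      obtain ⟨x, hp1, _⟩ := cyc_data (α := 3) (β := 1) (g := 3) (by norm_num) (by norm_num)
        (by norm_num) le_rfl hZ
      exact hp1
    exact_mod_cast this
  have hs : √((Z.card : ℝ) * Q.card) ≤ 0.1415 * Z.card := by
    rw [Real.sqrt_le_left (by positivity)]
    nlinarith
  have h6 : (1 + Real.logb 2 ((3 : ℕ) : ℝ)) * √((Z.card : ℝ) * Q.card) ≤
      2.6 * (0.1415 * Z.card) := by
    apply mul_le_mul _ hs (Real.sqrt_nonneg _) (by norm_num)
    linarith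
  have h7 : (Q.card : ℝ) * (2 + Real.logb 2 ((3 : ℕ) : ℝ) + 0) ≤ Q.card * 3.6 :=
    mul_le_mul_of_nonneg_left (by linarith) hQ0
  have h8 : (F.card : ℝ) ≤ 2.6 * (0.1415 * Z.card) + Q.card * 3.6 :=
    hb.trans (add_le_add h6 h7)
  norm_num at h8 h1 hcR
  linarith

end Pool.Agent.V5helper5.AB
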