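import Mathlib
import Pool.Agent.V5helper5.AB.Chain3

set_option autoImplicit false

namespace Pool.Agent.V5helper5.AB

open Finset Classical

/-- longest chains of odd elements, general maps -/
theorem chain_odd_ab {α β : ℤ} {g : ℕ} (hα : α % 2 = 1) (hβ : β % 2 = 1) (hg : |α| = g)
    (hg3 : 3 ≤ g) {Z : Finset ℤ} (hZ : IsCyc α β Z) (C : Finset ℤ) (hC : C ⊆ Z)
    (hodd : ∀ y ∈ C, y % 2 = 1) (hch : ∀ a ∈ C, ∀ b ∈ C, a ∣ b ∨ b ∣ a) :
    (C.card : ℝ) ≤ 4 * (2 + Real.logb 2 g + Real.logb 2 |(β : ℝ)|) * √(Z.card : ℝ) := by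
  set D : Set ℤ := {d | ∃ y ∈ C, d = |y|} with hD
  have hDC : DivChain D := by
    constructor
    · rintro d ⟨y, hy, rfl⟩
      have := hodd y hy
      exact abs_pos.2 (by omega)
    · rintro d ⟨y, hy, rfl⟩ d' ⟨z, hz, rfl⟩
      rcases hch y hy z hz with h | h
      · left; exact (abs_dvd_abs _ _).2 h
      · right; exact (abs_dvd_abs _ _).2 h
  set P : Finset (ℤ × ℤ) := {((0 : ℤ), (1 : ℤ)), ((0 : ℤ), (-1 : ℤ))} with hP
  have hPc : P.card = 2 := by rw [hP]; decide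
  have h := chain_cyc (B := 0) hα hβ hg hg3 P hDC (by
      intro q hq
      rw [hP, Finset.mem_insert, Finset.mem_singleton] at hq
      rcases hq with rfl | rfl <;> simp) hZ C hC (by
      intro y hy
      have hy1 := hodd y hy
      have hreg : ∀ i : ℕ, 1 ≤ i → (∃ s' : ℤ, ((T α β)^[i] 0, s') ∈ P) →
          ¬ (2 : ℤ) ^ i ∣ y - 0 := by
        intro i hi _ hd
        have h2 : (2 : ℤ) ∣ y - 0 := (dvd_pow_self 2 (by omega)).trans hd
        omega
      rcases le_or_gt 0 y with h0 | h0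
      · refine ⟨0, 1, |y|, ?_, by norm_num, ⟨y, hy, rfl⟩, ?_, hreg⟩
        · rw [hP]; simp
        · rw [abs_of_nonneg h0]; ring
      · refine ⟨0, -1, |y|, ?_, by norm_num, ⟨y, hy, rfl⟩, ?_, hreg⟩
        · rw [hP]; simp
        · rw [abs_of_neg h0]; ring)
  rw [hPc] at h
  have e1 : |(β : ℝ)| + 2 * ((0 : ℕ) : ℝ) = |(β : ℝ)| := by norm_num
  rw [e1] at h
  have hgR : (3 : ℝ) ≤ g := by exact_mod_cast hg3
  have hb1 : (1 : ℝ) ≤ |(β : ℝ)| := by
    have : 1 ≤ |β| := Int.one_le_abs (by omega)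
    exact_mod_cast this
  have hl0 : 0 ≤ Real.logb 2 (g : ℝ) := Real.logb_nonneg (by norm_num) (by linarith)
  have hb0 : 0 ≤ Real.logb 2 |(β : ℝ)| := Real.logb_nonneg (by norm_num) hb1
  set lam := Real.logb 2 (g : ℝ) with hlam
  set bet := Real.logb 2 |(β : ℝ)| with hbet
  have hZ1 : (1 : ℝ) ≤ Z.card := by
    have : 1 ≤ Z.card := by
      obtain ⟨x, hp1, _⟩ := cyc_data hα hβ hg (by exact_mod_cast hg3 : (3 : ℤ) ≤ (g : ℤ)) hZ
      exact hp1
    exact_mod_cast this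
  have hs1 : 1 ≤ √(Z.card : ℝ) := Real.one_le_sqrt.2 hZ1
  have hs : √((Z.card : ℝ) * ((2 : ℕ) : ℝ)) ≤ 1.42 * √(Z.card : ℝ) := by
    rw [Real.sqrt_mul (Nat.cast_nonneg _), mul_comm]
    apply mul_le_mul_of_nonneg_right _ (Real.sqrt_nonneg _)
    rw [Real.sqrt_le_left (by norm_num)]
    norm_num
  have h6 : (1 + lam) * √((Z.card : ℝ) * ((2 : ℕ) : ℝ)) ≤ (1 + lam) * (1.42 * √(Z.card : ℝ)) :=
    mul_le_mul_of_nonneg_left hs (by linarith)
  have h7 : ((2 : ℕ) : ℝ) * (2 + lam + bet) ≤ 2 * (2 + lam + bet) * √(Z.card : ℝ) := by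
    push_cast
    have h8 : 0 ≤ 2 * (2 + lam + bet) := by linarith
    nlinarith
  have h9 : (1 + lam) * (1.42 * √(Z.card : ℝ)) ≤ 2 * (2 + lam + bet) * √(Z.card : ℝ) := by
    have h10 : (1 + lam) * 1.42 ≤ 2 * (2 + lam + bet) := by nlinarith
    calc (1 + lam) * (1.42 * √(Z.card : ℝ)) = ((1 + lam) * 1.42) * √(Z.card : ℝ) := by ring
      _ ≤ _ := mul_le_mul_of_nonneg_right h10 (Real.sqrt_nonneg _)
  calc (C.card : ℝ) ≤ (1 + lam) * √((Z.card : ℝ) * ((2 : ℕ) : ℝ)) +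
        ((2 : ℕ) : ℝ) * (2 + lam + bet) := h
    _ ≤ 2 * (2 + lam + bet) * √(Z.card : ℝ) + 2 * (2 + lam + bet) * √(Z.card : ℝ) :=
        add_le_add (h6.trans h9) h7
    _ = _ := by ring

theorem antichain_ab {α β : ℤ} {g : ℕ} (hα : α % 2 = 1) (hβ : β % 2 = 1) (hg : |α| = g)
    (hg3 : 3 ≤ g) {Z : Finset ℤ} (hZ : IsCyc α β Z) (h0 : (0 : ℤ) ∉ Z) :
    ∃ A : Finset ℤ, A ⊆ Z ∧ (∀ y ∈ A, y % 2 = 1) ∧ (∀ y ∈ A, ∀ z ∈ A, y ∣ z → y = z) ∧
      Real.log 2 / Real.log ((g : ℝ) + |(β : ℝ)|) * √(Z.card : ℝ) ≤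
        8 * (2 + Real.logb 2 g + Real.logb 2 |(β : ℝ)|) * A.card := by
  have hgR : (3 : ℝ) ≤ g := by exact_mod_cast hg3
  have hb1 : (1 : ℝ) ≤ |(β : ℝ)| := by
    have : 1 ≤ |β| := Int.one_le_abs (by omega)
    exact_mod_cast this
  have hl0 : 0 ≤ Real.logb 2 (g : ℝ) := Real.logb_nonneg (by norm_num) (by linarith)
  have hb0 : 0 ≤ Real.logb 2 |(β : ℝ)| := Real.logb_nonneg (by norm_num) hb1
  set κ := 2 + Real.logb 2 (g : ℝ) + Real.logb 2 |(β : ℝ)| with hκ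
  have hκ0 : 0 < κ := by rw [hκ]; linarith
  have hodd := odd_cyc hα hβ hg (by exact_mod_cast hg3 : (3 : ℤ) ≤ (g : ℤ)) hZ h0
  rw [Int.cast_natCast] at hodd
  set δ := Real.log 2 / Real.log ((g : ℝ) + |(β : ℝ)|) with hδ
  set F := Z.filter fun y => y % 2 ≠ 0 with hF
  set Fp := F.filter fun y => 0 < y with hFp
  set Fn := F.filter fun y => ¬ 0 < y with hFn
  have hFc : F.card = Fp.card + Fn.card := (Finset.card_filter_add_card_filter_not _).symm
  -- a set of odd elements of one sign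
  have key : ∀ G : Finset ℤ, G ⊆ F → (∀ y ∈ G, ∀ z ∈ G, y ∣ z → z ∣ y → y = z) →
      δ * Z.card ≤ 2 * (G.card : ℝ) → ∃ A : Finset ℤ, A ⊆ Z ∧ (∀ y ∈ A, y % 2 = 1) ∧
        (∀ y ∈ A, ∀ z ∈ A, y ∣ z → y = z) ∧ δ * √(Z.card : ℝ) ≤ 8 * κ * A.card := by
    intro G hG hanti hGc
    obtain ⟨A, hA, hA1, hA2⟩ := mirsky G ⌊4 * κ * √(Z.card : ℝ)⌋₊ hanti (by
      intro C hC hch
      apply Nat.le_floor
      apply chain_odd_ab hα hβ hg hg3 hZ C
        (fun a ha => (Finset.mem_filter.1 (hG (hC ha))).1) _ hch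
      intro y hy
      have := (Finset.mem_filter.1 (hG (hC hy))).2
      omega)
    refine ⟨A, fun a ha => (Finset.mem_filter.1 (hG (hA ha))).1, ?_, hA1, ?_⟩
    · intro y hy
      have := (Finset.mem_filter.1 (hG (hA hy))).2
      omega
    · have h2 : (G.card : ℝ) ≤ (⌊4 * κ * √(Z.card : ℝ)⌋₊ : ℝ) * A.card := by exact_mod_cast hA2
      have hs0 : 0 ≤ √(Z.card : ℝ) := Real.sqrt_nonneg _
      have h3 : (⌊4 * κ * √(Z.card : ℝ)⌋₊ : ℝ) ≤ 4 * κ * √(Z.card : ℝ) :=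
        Nat.floor_le (by positivity)
      have hA0 : (0 : ℝ) ≤ A.card := Nat.cast_nonneg _
      have h4 : (G.card : ℝ) ≤ 4 * κ * √(Z.card : ℝ) * A.card :=
        h2.trans (mul_le_mul_of_nonneg_right h3 hA0)
      have hsq : √(Z.card : ℝ) * √(Z.card : ℝ) = Z.card := Real.mul_self_sqrt (Nat.cast_nonneg _)
      have hZ1 : (1 : ℝ) ≤ Z.card := by
        have : 1 ≤ Z.card := by
          obtain ⟨x, hp1, _⟩ := cyc_data hα hβ hg (by exact_mod_cast hg3 : (3 : ℤ) ≤ (g : ℤ)) hZ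
          exact hp1
        exact_mod_cast this
      have hs1 : 0 < √(Z.card : ℝ) := Real.sqrt_pos.2 (by linarith)
      have h5 : (δ * √(Z.card : ℝ)) * √(Z.card : ℝ) ≤ (8 * κ * A.card) * √(Z.card : ℝ) := by
        calc (δ * √(Z.card : ℝ)) * √(Z.card : ℝ) = δ * (√(Z.card : ℝ) * √(Z.card : ℝ)) := by ring
          _ = δ * Z.card := by rw [hsq]
          _ ≤ 2 * (G.card : ℝ) := hGc
          _ ≤ 2 * (4 * κ * √(Z.card : ℝ) * A.card) := by linarith
          _ = _ := by ring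
      exact le_of_mul_le_mul_right h5 hs1
  have hFR : (F.card : ℝ) = Fp.card + Fn.card := by exact_mod_cast hFc
  have hsign : ∀ y z : ℤ, y ∣ z → z ∣ y → y = z ∨ y = -z := fun y z h1 h2 =>
    Int.natAbs_eq_iff.1 (Nat.dvd_antisymm (Int.natAbs_dvd_natAbs.2 h1)
      (Int.natAbs_dvd_natAbs.2 h2)) |>.elim (fun h => by
        rcases Int.natAbs_eq z with h' | h' <;> omega) (fun h => by
        rcases Int.natAbs_eq z with h' | h' <;> omega)
  rcases le_total (Fn.card : ℝ) Fp.card with h | h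
  · apply key Fp (Finset.filter_subset _ _) _ (by linarith)
    intro y hy z hz h1 h2
    have hy' := (Finset.mem_filter.1 hy).2
    have hz' := (Finset.mem_filter.1 hz).2
    rcases hsign y z h1 h2 with h3 | h3 <;> omega
  · apply key Fn (Finset.filter_subset _ _) _ (by linarith)
    intro y hy z hz h1 h2
    have hy' := (Finset.mem_filter.1 hy).2
    have hz' := (Finset.mem_filter.1 hz).2
    have hy0 := (Finset.mem_filter.1 (Finset.mem_filter.1 hy).1).2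
    rcases hsign y z h1 h2 with h3 | h3 <;> omega

theorem multipliers_ab {α β : ℤ} {g : ℕ} (hα : α % 2 = 1) (hβ : β % 2 = 1) (hg : |α| = g)
    (hg3 : 3 ≤ g) {Z : Finset ℤ} (hZ : IsCyc α β Z) (h0 : (0 : ℤ) ∉ Z) {D : Set ℤ}
    (hD : DivChain D) (Q : Finset ℤ)
    (h : ∀ y ∈ Z, y % 2 = 1 → ∃ s ∈ Q, ∃ d ∈ D, y = s * d) :
    (Real.log 2 / Real.log ((g : ℝ) + |(β : ℝ)|) /
      (2 * (2 + Real.logb 2 g + Real.logb 2 |(β : ℝ)|))) ^ 2 * Z.card ≤ Q.card := by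
  have hgR : (3 : ℝ) ≤ g := by exact_mod_cast hg3
  have hb1 : (1 : ℝ) ≤ |(β : ℝ)| := by
    have : 1 ≤ |β| := Int.one_le_abs (by omega)
    exact_mod_cast this
  have hl0 : 0 ≤ Real.logb 2 (g : ℝ) := Real.logb_nonneg (by norm_num) (by linarith)
  have hb0 : 0 ≤ Real.logb 2 |(β : ℝ)| := Real.logb_nonneg (by norm_num) hb1
  have hodd := odd_cyc hα hβ hg (by exact_mod_cast hg3 : (3 : ℤ) ≤ (g : ℤ)) hZ h0
  rw [Int.cast_natCast] at hodd
  set F := Z.filter fun y => y % 2 ≠ 0 with hF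
  set P : Finset (ℤ × ℤ) := ({0} : Finset ℤ) ×ˢ Q with hP
  have hPc : P.card = Q.card := by rw [hP, Finset.card_product]; simp
  have hb := chain_cyc (B := 0) hα hβ hg hg3 P hD (by
      intro q hq
      rw [hP, Finset.mem_product, Finset.mem_singleton] at hq
      rw [hq.1]; simp) hZ F (Finset.filter_subset _ _) (by
      intro y hy
      have hy' := Finset.mem_filter.1 hy
      have hy1 : y % 2 = 1 := by have := hy'.2; omega
      obtain ⟨s, hs, d, hd, he⟩ := h y hy'.1 hy1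
      refine ⟨0, s, d, ?_, ?_, hd, by rw [zero_add]; exact he, ?_⟩
      · rw [hP, Finset.mem_product]; exact ⟨Finset.mem_singleton_self _, hs⟩
      · rintro rfl; rw [zero_mul] at he; omega
      · intro i hi _ hd2
        have h2 : (2 : ℤ) ∣ y - 0 := (dvd_pow_self 2 (by omega)).trans hd2
        omega)
  rw [hPc] at hb
  have e1 : |(β : ℝ)| + 2 * ((0 : ℕ) : ℝ) = |(β : ℝ)| := by norm_num
  rw [e1] at hb
  set κ := 2 + Real.logb 2 (g : ℝ) + Real.logb 2 |(β : ℝ)| with hκ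
  have hκ0 : 0 < κ := by rw [hκ]; linarith
  set δ := Real.log 2 / Real.log ((g : ℝ) + |(β : ℝ)|) with hδ
  have hδ0 : 0 < δ := div_pos (Real.log_pos (by norm_num)) (Real.log_pos (by linarith))
  have hδ1 : δ ≤ 1 := by
    rw [hδ, div_le_one (Real.log_pos (by linarith))]
    exact Real.log_le_log (by norm_num) (by linarith)
  by_contra hcon
  push Not at hcon
  set p : ℝ := (Z.card : ℝ) with hp
  set N : ℝ := (Q.card : ℝ) with hN
  have hN0 : 0 ≤ N := Nat.cast_nonneg _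
  have hp0 : 0 ≤ p := Nat.cast_nonneg _
  set θ := δ / (2 * κ) with hθ
  have hθ0 : 0 < θ := by positivity
  have hκ2 : 2 ≤ κ := by rw [hκ]; linarith
  have hθ1 : θ ≤ 1 / 4 := by
    rw [hθ, div_le_div_iff₀ (by positivity) (by norm_num)]
    nlinarith
  have hppos : 0 < p := by
    by_contra hp'
    push Not at hp'
    have : θ ^ 2 * p ≤ 0 := by nlinarith [sq_nonneg θ]
    linarith
  have hs : √(p * N) < θ * p := by
    rw [Real.sqrt_lt' (by positivity)]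
    nlinarith
  have h1 : (1 + Real.logb 2 (g : ℝ)) * √(p * N) ≤ κ * √(p * N) :=
    mul_le_mul_of_nonneg_right (by rw [hκ]; linarith) (Real.sqrt_nonneg _)
  have h2 : N * (2 + Real.logb 2 (g : ℝ) + Real.logb 2 |(β : ℝ)|) ≤ κ * (θ * p) := by
    rw [← hκ, mul_comm]
    apply mul_le_mul_of_nonneg_left _ hκ0.le
    nlinarith
  have h3 : κ * √(p * N) < κ * (θ * p) := mul_lt_mul_of_pos_left hs hκ0
  have h4 : δ * p < κ * (θ * p) + κ * (θ * p) := by
    calc δ * p ≤ (F.card : ℝ) := hodd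
      _ ≤ _ := hb
      _ < _ := add_lt_add_of_lt_of_le (lt_of_le_of_lt h1 h3) h2
  have h5 : κ * (θ * p) + κ * (θ * p) = δ * p := by
    rw [hθ]; field_simp; ring
  linarith

end Pool.Agent.V5helper5.AB
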